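import Pool.Agent.K3h82.PC.PMain

/-!
# Sections for the curves `d y ^ 2 = x ^ (2 ^ m) - a ^ 4` over `ℚ` (2)
-/

set_option autoImplicit false
set_option linter.all false

open Polynomial FF Pool.Agent.Y157.PS Pool.Agent.TH954 IsDedekindDomain NumberField

namespace Pool.Agent.K3h82.PC

open Pool.Agent.K3h82.BT Pool.Agent.K3h82.OP Pool.Agent.K3h82.OT Pool.Agent.K3h82.FQ4
open Pool.Agent.Y158.GR

/-- the splitting field -/
theorem exists_split {K : Type} [Field K] [NumberField K] (f : K[X]) :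
    ∃ (K' : Type) (_ : Field K') (_ : NumberField K')
    (_ : Algebra K K') (_ : Normal K K'), (f.map (algebraMap K K')).Splits ∧
      Algebra.adjoin K (f.rootSet K') = ⊤ := by
  haveI : NumberField f.SplittingField := NumberField.of_module_finite K f.SplittingField
  haveI : Normal K f.SplittingField := Normal.of_isSplittingField f
  exact ⟨f.SplittingField, inferInstance, inferInstance, inferInstance, inferInstance,
    SplittingField.splits f, SplittingField.adjoin_rootSet f⟩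

section

attribute [-instance] DivisionRing.toRatAlgebra
attribute [local instance 1] DivisionRing.toRatAlgebra

variable {F Ω B : Type} [Field F] [Field Ω] [Field B] [Algebra ℚ F] [Algebra F Ω]
  [Algebra ℚ Ω] [Algebra ℚ B] [IsScalarTower ℚ F Ω] [IsAlgClosed Ω] [Algebra.IsAlgebraic F Ω]
  [IsAlgClosure ℚ B]
  {C₂ : Type} [Field C₂] [Algebra ℚ_[2] C₂] [Algebra ℚ C₂] [IsAlgClosure ℚ_[2] C₂]

/-- a section which at `2` is given by a point with rational coordinates, for a polynomial whose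
Galois group is a `2`-group -/
theorem ptQ {p n : ℕ} {f : ℤ[X]} {d : ℤ} (hp : p.Prime) (hp8 : p % 8 = 3 ∨ p % 8 = 5)
    (hm : f.Monic) (h3 : 3 ≤ f.natDegree) (hd : d ∣ (2 * p) ^ n)
    (hb : ∃ u w : ℤ[X], u * f + w * derivative f = C ((2 * (p : ℤ)) ^ n))
    (hG : ∀ (K' : Type) [Field K'] [Algebra ℚ K'],
      Algebra.adjoin ℚ ((f.map (Int.castRingHom ℚ)).rootSet K') = ⊤ →
      ∀ σ : K' ≃ₐ[ℚ] K', ∃ n : ℕ, σ ^ (2 ^ n) = 1)
    (N : IntermediateField F Ω) (s : GalSection ℚ F N B) (x y : N) (hxs : ∀ g, s.s g x = x)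
    (hys : ∀ g, s.s g y = y) (hx : Transcendental ℚ (x : Ω))
    (hΩ : Algebra.IsAlgebraic (IntermediateField.adjoin ℚ {(x : Ω)}) Ω)
    (hxy : (d : Ω) * (y : Ω) ^ 2 = aeval (x : Ω) f)
    (hN : ∀ z ∈ geomPro 2 ℚ (IntermediateField.adjoin ℚ {(x : Ω), (y : Ω)}) Ω, z ∈ N)
    (pl : Plc ℚ N C₂) (hpv : s.GivenBy ℚ_[2] pl)
    (hpt : RatAt ℚ pl x y ((f.natDegree + 1) / 2)) :
    ∀ (g : B ≃ₐ[ℚ] B) (z : N),
      (z : Ω) ∈ geomPro 2 ℚ (IntermediateField.adjoin ℚ {(x : Ω), (y : Ω)}) Ω →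
      (s.s g z ∈ pl.W ↔ z ∈ pl.W) := by
  classical
  haveI : Fact (Nat.Prime 2) := ⟨Nat.prime_two⟩
  haveI : IsScalarTower ℚ ℚ_[2] C₂ := IsScalarTower.of_algebraMap_eq' (Subsingleton.elim _ _)
  obtain ⟨hd0, hs, hcond⟩ := cond_two (C₂ := C₂) hp hp8 hm hd hb
  have hmQ : (f.map (Int.castRingHom ℚ)).Monic := hm.map _
  obtain ⟨K', i1, i2, i3, i4, hsp, hadj⟩ := exists_split (f.map (Int.castRingHom ℚ))
  have hζ : IsPrimitiveRoot (-1 : K') 2 := IsPrimitiveRoot.neg_one 0 (by norm_num)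
  have hprod := split_prod (K' := K') hmQ hs hsp
  obtain ⟨E, hE⟩ : ∃ E : Finset K',
      E = ((f.map (Int.castRingHom ℚ)).map (algebraMap ℚ K')).roots.toFinset := ⟨_, rfl⟩
  have hcard : E.card = f.natDegree := by
    have h1 : ((f.map (Int.castRingHom ℚ)).map (algebraMap ℚ K')).roots.Nodup :=
      nodup_roots hs.map
    rw [hE, Multiset.toFinset_card_of_nodup h1, ← hsp.natDegree_eq_card_roots, natDegree_map,
      hm.natDegree_map]
  have hroots : ∀ e ∈ E, aeval e (f.map (Int.castRingHom ℚ)) = 0 := by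
    intro e he
    rw [hE, Multiset.mem_toFinset, mem_roots'] at he
    rw [← eval_map_algebraMap]
    exact he.2
  rw [← hE] at hprod
  have hmm : mm 2 E.card = (f.natDegree + 1) / 2 := by
    rw [hcard]
    unfold mm ninf
    split_ifs with h <;> omega
  intro g z hz
  refine ptUP (K := ℚ) (K' := K') (ℓ := 2) hζ (E := E) ?_ ?_ hd0 hprod
    (fun i => (hcond K' hadj (fun σ => hG K' hadj σ) ∅ (by simp) i).1)
    (fun i => (hcond K' hadj (fun σ => hG K' hadj σ) E hroots i).2) N x y hx hΩ ?_ hN s hxs hys pl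
    hpv ?_ g z hz
  · omega
  · rw [hcard]
    unfold ninf
    split_ifs <;> omega
  · rw [map_intCast, hxy]
    exact (Polynomial.aeval_map_algebraMap ℚ (x : Ω) f).symm
  · rw [hmm]
    exact hpt

/-- **the theorem** -/
theorem pcGeo {p : ℕ} (hp : p.Prime) (hp8 : p % 8 = 3 ∨ p % 8 = 5) {n : ℕ} {a d : ℤ}
    (ha : a ∣ 2 * p) (hd : d ∣ 2 * p)
    (N : IntermediateField F Ω) (s : GalSection ℚ F N B) (x y : N) (hxs : ∀ g, s.s g x = x)
    (hys : ∀ g, s.s g y = y) (hx : Transcendental ℚ (x : Ω))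
    (hΩ : Algebra.IsAlgebraic (IntermediateField.adjoin ℚ {(x : Ω)}) Ω)
    (hxy : (d : N) * y ^ 2 = x ^ (2 ^ (n + 3)) - (a : N) ^ 4)
    (hN : ∀ z ∈ geomPro 2 ℚ (IntermediateField.adjoin ℚ {(x : Ω), (y : Ω)}) Ω, z ∈ N)
    (pl : Plc ℚ N C₂) (hpv : s.GivenBy ℚ_[2] pl) :
    ∀ (g : B ≃ₐ[ℚ] B) (z : N),
      (z : Ω) ∈ geomPro 2 ℚ (IntermediateField.adjoin ℚ {(x : Ω), (y : Ω)}) Ω →
      (s.s g z ∈ pl.W ↔ z ∈ pl.W) := by
  have hdeg : (X ^ (2 ^ (n + 3)) - C (a ^ 4) : ℤ[X]).natDegree = 2 ^ (n + 3) :=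
    natDegree_X_pow_sub_C
  have h8 : 8 ≤ 2 ^ (n + 3) := by
    calc 8 = 2 ^ 3 := by norm_num
      _ ≤ 2 ^ (n + 3) := Nat.pow_le_pow_right (by norm_num) (by omega)
  have hhalf : (2 ^ (n + 3) + 1) / 2 = 2 ^ (n + 2) := by
    have : 2 ^ (n + 3) = 2 * 2 ^ (n + 2) := by rw [pow_succ]; ring
    omega
  refine ptQ (f := X ^ (2 ^ (n + 3)) - C (a ^ 4)) (n := n + 7) hp hp8
    (monic_X_pow_sub_C _ (by positivity)) (by rw [hdeg]; omega)
    (hd.trans (dvd_pow_self _ (by omega))) ?_ ?_ N s x y hxs hys hx hΩ ?_ hN pl hpv ?_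
  · -- the discriminant
    obtain ⟨e, he⟩ : ((2 : ℤ) ^ (n + 3) * a ^ 4) ∣ (2 * (p : ℤ)) ^ (n + 7) := by
      have h1 : (2 * (p : ℤ)) ^ (n + 7) = (2 * p) ^ (n + 3) * (2 * p) ^ 4 := by rw [← pow_add]
      rw [h1]
      exact mul_dvd_mul (pow_dvd_pow_of_dvd (Dvd.intro _ rfl) _) (pow_dvd_pow_of_dvd ha 4)
    refine ⟨-(C (2 ^ (n + 3) * e)), C e * X, ?_⟩
    have h1 : (X : ℤ[X]) * X ^ (2 ^ (n + 3) - 1) = X ^ (2 ^ (n + 3)) := by
      rw [← pow_succ']
      congr 1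
      omega
    rw [he, derivative_sub, derivative_X_pow, derivative_C, sub_zero]
    have h2 : ((2 ^ (n + 3) : ℕ) : ℤ[X]) = C ((2 : ℤ) ^ (n + 3)) := by
      push_cast
      rw [map_pow, map_ofNat]
    rw [C_mul, C_mul, C_mul, ← h2]
    simp only [Nat.cast_pow, Nat.cast_ofNat, map_pow, map_natCast, map_ofNat]
    linear_combination (C e * (2 : ℤ[X]) ^ (n + 3)) * h1
  · intro K' _ _ hadj σ
    refine ⟨n + 3, gal_pow (n + 3) ((a : ℚ) ^ 4) ?_ hadj σ⟩
    rw [Polynomial.map_sub, Polynomial.map_pow, map_X, map_C, map_pow, eq_intCast]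
  · have h1 := congrArg (algebraMap N Ω) hxy
    rw [map_mul, map_pow, map_sub, map_pow, map_pow, map_intCast, map_intCast] at h1
    rw [map_sub, map_pow, aeval_X, aeval_C, map_pow]
    rw [eq_intCast]
    exact h1
  · rw [hdeg, hhalf]
    rcases pcPoint hp hp8 ha hd N s x y hxs hys hx hΩ hxy hN pl hpv with
      ⟨-, h1, h2⟩ | ⟨-, h1, h2⟩ | ⟨-, h1, h2⟩
    · rcases h1 with h1 | h1
      · exact Or.inl ⟨1, 0, by rwa [map_one], by rwa [map_zero]⟩
      · exact Or.inl ⟨-1, 0, by rwa [map_neg, map_one], by rwa [map_zero]⟩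
    · rcases h2 with h2 | h2
      · exact Or.inl ⟨0, (a : ℚ) ^ 2, by rwa [map_zero], by rwa [map_pow, map_intCast]⟩
      · exact Or.inl ⟨0, -(a : ℚ) ^ 2, by rwa [map_zero], by rwa [map_neg, map_pow, map_intCast]⟩
    · rcases h2 with h2 | h2
      · exact Or.inr ⟨h1, 1, by rwa [map_one]⟩
      · exact Or.inr ⟨h1, -1, by rwa [map_neg, map_one]⟩

end

end Pool.Agent.K3h82.PC
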