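import Pool.Agent.K3h82.OP.Main3
import Pool.Agent.K3h82.FQ4.Tow

/-!
# The covering field of a superelliptic curve contains that of a quotient curve
-/

set_option autoImplicit false
set_option linter.all false

open Polynomial FF Pool.Agent.Y157.PS Pool.Agent.Y948.PS

namespace Pool.Agent.K3h82.PC

open Pool.Agent.K3h82.BT Pool.Agent.K3h82.OP
open Pool.Agent.Y158.FQ (adjoin_pair_top)

section mem

variable {κ R₁ R₂ Ω : Type} [Field κ] [Field R₁] [Field R₂] [Field Ω] [Algebra κ Ω] [Algebra R₁ Ω]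
  [Algebra R₂ Ω] [Algebra.IsAlgebraic R₁ Ω]

/-- the elements of the covering field, for a larger field -/
theorem mem_mono {ℓ : ℕ} {K₁ : IntermediateField R₁ Ω} {K₂ : IntermediateField R₂ Ω}
    (hR : ∀ r : R₁, ∃ r' : R₂, algebraMap R₂ Ω r' = algebraMap R₁ Ω r)
    (hK : ∀ z ∈ K₁, z ∈ K₂) (halg : ∀ (W : ValuationSubring Ω), ∀ s ∈ K₂, s ≠ 0 →
      ∃ s' ∈ K₁, s' ≠ 0 ∧ W.valuation s' ≤ W.valuation s) {z : Ω} (hz : Mem ℓ κ K₁ z) :
    Mem ℓ κ K₂ z := by
  obtain ⟨⟨k, hk⟩, h2⟩ := hz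
  refine ⟨⟨k, fun σ γ => ?_⟩, fun W hκ hW s hs hs0 => ?_⟩
  · let res : (Ω ≃ₐ[R₂] Ω) → (Ω ≃ₐ[R₁] Ω) := fun σ =>
      AlgEquiv.ofRingEquiv (f := (σ : Ω ≃+* Ω)) (fun r => by
        obtain ⟨r', hr'⟩ := hR r
        rw [← hr']
        exact σ.commutes r')
    have h3 : ∀ (σ : Ω ≃ₐ[R₂] Ω) (z : Ω), res σ z = σ z := fun _ _ => rfl
    have h4 : ∀ (n : ℕ) (z : Ω), ((res σ) ^ n) z = (σ ^ n) z := by
      intro n
      induction n with
      | zero => intro z; rfl
      | succ n ih => intro z; rw [pow_succ, pow_succ, AlgEquiv.mul_apply, AlgEquiv.mul_apply, ih, h3]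
    have h5 := hk (res σ) (res γ)
    rw [h4, h3] at h5
    exact h5
  · obtain ⟨s', hs', hs0', hle⟩ := halg W s hs hs0
    obtain ⟨t, ht, h3⟩ := h2 W hκ hW s' hs' hs0'
    exact ⟨t, hK t ht, h3.trans hle⟩

end mem

section se

variable {k Ω : Type} [Field k] [CharZero k] [Field Ω] [Algebra k Ω] [IsAlgClosed Ω]
  {ℓ : ℕ} [hℓ : Fact ℓ.Prime]

/-- a point of the curve `d y ^ ℓ = ∏ (x - e)` -/
structure SE (ℓ : ℕ) (T : Finset (algebraicClosure k Ω)) (d : k) (x y : Ω) : Prop where
  trans : Transcendental k x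
  alg : Algebra.IsAlgebraic (IntermediateField.adjoin k {x}) Ω
  ne : d ≠ 0
  eqn : algebraMap k Ω d * y ^ ℓ = ∏ e ∈ T, (x - (e : Ω))
  dvd : ℓ ∣ T.card ∨ ℓ ∣ T.card + 1
  pos : 0 < T.card

variable {T : Finset (algebraicClosure k Ω)} {d : k} {x y : Ω}

theorem SE.algR (h : SE ℓ T d x y) :
    Algebra.IsAlgebraic (IntermediateField.adjoin (algebraicClosure k Ω) {x}) Ω := by
  constructor
  intro z
  have h1 := h.alg.isAlgebraic z
  have hle : ∀ w ∈ IntermediateField.adjoin k {x},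
      w ∈ IntermediateField.adjoin (algebraicClosure k Ω) {x} := by
    refine adjoin_le_sub (K := k)
      (T := (IntermediateField.adjoin (algebraicClosure k Ω) {x}).toSubfield)
      (fun c => ?_) (fun u hu => IntermediateField.subset_adjoin _ _ hu)
    rw [IsScalarTower.algebraMap_apply k (algebraicClosure k Ω) Ω]
    exact (IntermediateField.adjoin (algebraicClosure k Ω) {x}).algebraMap_mem _
  let φ : IntermediateField.adjoin k {x} →+*
      IntermediateField.adjoin (algebraicClosure k Ω) {x} :=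
    { toFun := fun w => ⟨w.1, hle _ w.2⟩
      map_one' := rfl
      map_mul' := fun _ _ => rfl
      map_zero' := rfl
      map_add' := fun _ _ => rfl }
  obtain ⟨q, hq0, hq⟩ := h1
  refine ⟨q.map φ, (Polynomial.map_ne_zero_iff φ.injective).2 hq0, ?_⟩
  rw [Polynomial.aeval_def, Polynomial.eval₂_map]
  exact hq

theorem SE.closR (h : SE ℓ T d x y) :
    IsAlgClosure (IntermediateField.adjoin (algebraicClosure k Ω) {x}) Ω :=
  ⟨inferInstance, h.algR⟩

omit [CharZero k] hℓ in
theorem SE.pow (h : SE ℓ T d x y) :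
    ∃ f : IntermediateField.adjoin (algebraicClosure k Ω) {x}, y ^ ℓ = algebraMap _ Ω f := by
  have hdΩ : algebraMap k Ω d ≠ 0 := (_root_.map_ne_zero _).2 h.ne
  have h1 : y ^ ℓ = algebraMap (algebraicClosure k Ω) Ω
      (algebraMap k (algebraicClosure k Ω) d)⁻¹ * ∏ e ∈ T, (x - (e : Ω)) := by
    rw [← h.eqn, map_inv₀, ← IsScalarTower.algebraMap_apply, inv_mul_cancel_left₀ hdΩ]
  have h2 : y ^ ℓ ∈ IntermediateField.adjoin (algebraicClosure k Ω) {x} := by
    rw [h1]
    exact mul_mem (IntermediateField.algebraMap_mem _ _) (prod_mem fun e _ => sub_mem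
      (IntermediateField.mem_adjoin_simple_self _ _)
      (IntermediateField.algebraMap_mem _ e))
  exact ⟨⟨_, h2⟩, rfl⟩

theorem SE.hu (h : SE ℓ T d x y) : HU (algebraicClosure k Ω)
    (IntermediateField.adjoin (IntermediateField.adjoin (algebraicClosure k Ω) {x}) {y}) := by
  classical
  have hℓ0 : ℓ ≠ 0 := hℓ.out.ne_zero
  have hac : IsAlgClosure k (algebraicClosure k Ω) := inferInstance
  have hkb : IsAlgClosed (algebraicClosure k Ω) := hac.1
  have hch : CharZero (algebraicClosure k Ω) :=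
    charZero_of_injective_algebraMap (algebraMap k (algebraicClosure k Ω)).injective
  haveI := h.closR
  have hrat := ratF_adj (trans_up h.trans)
  have hdκ : algebraMap k (algebraicClosure k Ω) d ≠ 0 := (_root_.map_ne_zero _).2 h.ne
  obtain ⟨a, ha⟩ := Infinite.exists_notMem_finset T
  have hP0 : ∏ e ∈ T, (a - e) ≠ 0 := by
    rw [Finset.prod_ne_zero_iff]
    intro e he
    rw [sub_ne_zero]
    rintro rfl
    exact ha he
  obtain ⟨δ, hδ'⟩ := IsAlgClosed.exists_pow_nat_eq
    (algebraMap k (algebraicClosure k Ω) d / (∏ e ∈ T, (a - e))) hℓ.out.pos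
  have hδ : δ ^ ℓ * ∏ e ∈ T, (a - e) = algebraMap k (algebraicClosure k Ω) d := by
    rw [hδ', div_mul_cancel₀ _ hP0]
  have hδ0 : δ ≠ 0 := by
    rintro rfl
    rw [zero_pow hℓ0, zero_mul] at hδ
    exact hdκ hδ.symm
  obtain ⟨x', hx'⟩ : ∃ x' : IntermediateField.adjoin (algebraicClosure k Ω) {x},
    x' = ⟨x, IntermediateField.mem_adjoin_simple_self _ _⟩ := ⟨_, rfl⟩
  rw [← hx'] at hrat
  have hxa : x' - algebraMap (algebraicClosure k Ω) _ a ≠ 0 := by
    intro h0
    apply hrat.trans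
    rw [sub_eq_zero.1 h0]
    exact isAlgebraic_algebraMap a
  have hx'Ω : algebraMap (IntermediateField.adjoin (algebraicClosure k Ω) {x}) Ω
      x' = x := by rw [hx']; rfl
  have hxaΩ : x - algebraMap (algebraicClosure k Ω) Ω a ≠ 0 := by
    have h1 := (_root_.map_ne_zero (algebraMap (IntermediateField.adjoin (algebraicClosure k Ω)
      {x}) Ω)).2 hxa
    rwa [map_sub, hx'Ω, ← IsScalarTower.algebraMap_apply] at h1
  have htΩ : algebraMap (IntermediateField.adjoin (algebraicClosure k Ω) {x}) Ω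
      (x' - algebraMap (algebraicClosure k Ω) _ a)⁻¹ =
      (x - algebraMap (algebraicClosure k Ω) Ω a)⁻¹ := by
    rw [map_inv₀, map_sub, hx'Ω, ← IsScalarTower.algebraMap_apply]
  obtain ⟨c, hc⟩ : ∃ c : IntermediateField.adjoin (algebraicClosure k Ω) {x},
      c = algebraMap (algebraicClosure k Ω) _ δ *
        (x' - algebraMap (algebraicClosure k Ω) _ a)⁻¹ ^ mm ℓ T.card := ⟨_, rfl⟩
  have hc0 : c ≠ 0 := by
    rw [hc]
    exact mul_ne_zero ((_root_.map_ne_zero _).2 hδ0) (pow_ne_zero _ (inv_ne_zero hxa))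
  have hadj := adjoin_mul (Ω := Ω) (Y := y) hc0
  have hYt : (algebraMap _ Ω c * y) ^ ℓ = ∏ e ∈ Bs ℓ T a, (algebraMap
      (IntermediateField.adjoin (algebraicClosure k Ω) {x}) Ω
      (x' - algebraMap (algebraicClosure k Ω) _ a)⁻¹ - algebraMap (algebraicClosure k Ω) Ω e) := by
    have e1 : ∏ e ∈ T, (x - algebraMap (algebraicClosure k Ω) Ω e) =
        algebraMap k Ω d * y ^ ℓ := h.eqn.symm
    rw [htΩ, prod_Bs h.dvd ha hxaΩ, e1, hc, map_mul, map_pow, htΩ,
      ← IsScalarTower.algebraMap_apply]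
    have h1 : algebraMap k Ω d = algebraMap (algebraicClosure k Ω) Ω δ ^ ℓ *
        ∏ e ∈ T, (algebraMap (algebraicClosure k Ω) Ω a -
          algebraMap (algebraicClosure k Ω) Ω e) := by
      rw [IsScalarTower.algebraMap_apply k (algebraicClosure k Ω) Ω, ← hδ, map_mul, map_pow,
        map_prod]
      simp only [map_sub]
    have hA0 : ∏ e ∈ T, (algebraMap (algebraicClosure k Ω) Ω a -
        algebraMap (algebraicClosure k Ω) Ω e) ≠ 0 := by
      rw [Finset.prod_ne_zero_iff]
      intro e he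
      rw [← map_sub, _root_.map_ne_zero, sub_ne_zero]
      rintro rfl
      exact ha he
    rw [h1]
    generalize ∏ e ∈ T, (algebraMap (algebraicClosure k Ω) Ω a -
          algebraMap (algebraicClosure k Ω) Ω e) = A at hA0 ⊢
    rw [mul_pow, mul_pow, ← pow_mul, mul_comm (mm ℓ T.card) ℓ]
    field_simp
  have hcard : (Bs ℓ T a).card = ℓ * mm ℓ T.card := by rw [card_Bs ha, ← mul_mm h.dvd]
  have h1 := hu_of (ratF_inv hrat a) (B := Bs ℓ T a) (by rw [hcard]; exact Dvd.intro _ rfl)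
    (Finset.card_pos.1 (by rw [card_Bs ha]; exact Nat.add_pos_left h.pos _)) hYt
  rwa [hadj] at h1

theorem SE.geo (h : SE ℓ T d x y) (z : Ω) :
    z ∈ maxPro ℓ (algebraicClosure k Ω) (IntermediateField.adjoin
      (IntermediateField.adjoin (algebraicClosure k Ω) {x}) {y}) Ω ↔
      z ∈ geomPro ℓ k (IntermediateField.adjoin k {x, y}) Ω := by
  obtain ⟨F₀, hF₀⟩ : ∃ F₀ : IntermediateField k Ω, F₀ = IntermediateField.adjoin k {x, y} :=
    ⟨_, rfl⟩
  have hxF : x ∈ F₀ := by rw [hF₀]; exact IntermediateField.subset_adjoin k _ (by simp)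
  have hyF : y ∈ F₀ := by rw [hF₀]; exact IntermediateField.subset_adjoin k _ (by simp)
  rw [← hF₀]
  have htop := adjoin_pair_top hF₀ hxF hyF
  have h1 := maxPro_geom (Ω := Ω) ℓ k htop (1 : algebraicClosure k Ω) one_ne_zero z
  have h2 : ((1 : algebraicClosure k Ω) : Ω) * algebraMap F₀ Ω ⟨y, hyF⟩ = y := by
    change 1 * y = y
    rw [one_mul]
  rw [h2] at h1
  exact h1

/-- **the covering field of a quotient curve** -/
theorem SE.mono {T' : Finset (algebraicClosure k Ω)} {d' : k} {X Y : Ω} (h' : SE ℓ T' d' X Y)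
    (h : SE ℓ T d x y) (hX : X ∈ IntermediateField.adjoin (algebraicClosure k Ω) {x})
    (hY : Y ∈ IntermediateField.adjoin (IntermediateField.adjoin (algebraicClosure k Ω) {x}) {y})
    {z : Ω} (hz : z ∈ geomPro ℓ k (IntermediateField.adjoin k {X, Y}) Ω) :
    z ∈ geomPro ℓ k (IntermediateField.adjoin k {x, y}) Ω := by
  have hac : IsAlgClosure k (algebraicClosure k Ω) := inferInstance
  have hkb : IsAlgClosed (algebraicClosure k Ω) := hac.1
  have hch : CharZero (algebraicClosure k Ω) :=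
    charZero_of_injective_algebraMap (algebraMap k (algebraicClosure k Ω)).injective
  haveI := h.closR
  haveI := h'.closR
  haveI := h.algR
  haveI := h'.algR
  haveI : Normal (IntermediateField.adjoin (algebraicClosure k Ω) {x}) Ω :=
    IsAlgClosure.normal _ Ω
  haveI : Normal (IntermediateField.adjoin (algebraicClosure k Ω) {X}) Ω :=
    IsAlgClosure.normal _ Ω
  obtain ⟨f, hf⟩ := h.pow
  obtain ⟨f', hf'⟩ := h'.pow
  rw [← h.geo]
  rw [← h'.geo] at hz
  have h1 := maxPro_le (ratF_adj (trans_up h'.trans)) hf' h'.hu hz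
  refine le_maxPro hf h.hu ?_
  have hle : ∀ w ∈ IntermediateField.adjoin (algebraicClosure k Ω) {X},
      w ∈ IntermediateField.adjoin (algebraicClosure k Ω) {x} := by
    have h2 : IntermediateField.adjoin (algebraicClosure k Ω) {X} ≤
        IntermediateField.adjoin (algebraicClosure k Ω) {x} := by
      rw [IntermediateField.adjoin_le_iff, Set.singleton_subset_iff]
      exact hX
    exact fun w hw => h2 hw
  have hK : ∀ w ∈ IntermediateField.adjoin
      (IntermediateField.adjoin (algebraicClosure k Ω) {X}) {Y},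
      w ∈ IntermediateField.adjoin
        (IntermediateField.adjoin (algebraicClosure k Ω) {x}) {y} := by
    refine adjoin_le_sub (T := (IntermediateField.adjoin
        (IntermediateField.adjoin (algebraicClosure k Ω) {x}) {y}).toSubfield)
      (fun c => ?_) (fun u hu => ?_)
    · exact (IntermediateField.adjoin (IntermediateField.adjoin (algebraicClosure k Ω) {x})
        {y}).algebraMap_mem ⟨c.1, hle _ c.2⟩
    · rw [Set.mem_singleton_iff] at hu
      rw [hu]
      exact hY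
  refine mem_mono (fun r => ⟨⟨r.1, hle _ r.2⟩, rfl⟩) hK (fun W s hs hs0 => ?_) h1
  obtain ⟨b, hb, hb0, hle⟩ := bdd_alg (IntermediateField.adjoin
    (IntermediateField.adjoin (algebraicClosure k Ω) {X}) {Y}) W s⁻¹
  refine ⟨b⁻¹, inv_mem hb, inv_ne_zero hb0, ?_⟩
  rw [map_inv₀] at hle ⊢
  have h2 : 0 < W.valuation s := (Valuation.pos_iff _).2 hs0
  have h3 : 0 < W.valuation b := (Valuation.pos_iff _).2 hb0
  exact inv_le_of_inv_le₀ h2 hle

end se

end Pool.Agent.K3h82.PC
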