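import Pool.Agent.K3h82.FQ4.Main5

/-!
# Values at `2` of the coordinates on the curves `d y ^ 2 = x ^ (2 ^ m) - a ^ 4`
-/

set_option autoImplicit false
set_option linter.all false

namespace Pool.Agent.K3h82.PC

open Pool.Agent.K3h82.BT Pool.Agent.K3h82.FQ4

/-- roots of unity of order a power of two in `ℚ_2` -/
theorem two_root (n : ℕ) : ∀ z : ℚ_[2], z ^ (2 ^ n) = 1 → z = 1 ∨ z = -1 := by
  induction n with
  | zero => intro z hz; rw [pow_zero, pow_one] at hz; exact Or.inl hz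
  | succ n ih =>
    intro z hz
    rw [pow_succ', pow_mul] at hz
    rcases ih _ hz with h | h
    · have h0 : (z - 1) * (z + 1) = 0 := by linear_combination h
      rcases mul_eq_zero.1 h0 with h1 | h1
      · exact Or.inl (sub_eq_zero.1 h1)
      · exact Or.inr (eq_neg_of_add_eq_zero_left h1)
    · exact absurd h sq_ne

/-- divisors of `2 p` which up to sign are powers in `ℚ_2` -/
theorem pow_int {p : ℕ} (hp : p.Prime) (hp8 : p % 8 = 3 ∨ p % 8 = 5) {a c : ℤ} (ha : a ∣ 2 * p)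
    (hc : c = 1 ∨ c = -1) {n : ℕ} {z : ℚ_[2]} (h : z ^ (2 ^ (n + 1)) = a * c) :
    a * c = 1 ∧ (z = 1 ∨ z = -1) := by
  have h1 : a * c ∣ 2 * p := by
    rcases hc with rfl | rfl
    · rwa [mul_one]
    · rwa [mul_neg, mul_one, neg_dvd]
  have h2 : (z ^ (2 ^ n)) ^ 2 = ((a * c : ℤ) : ℚ_[2]) := by
    rw [← pow_mul, ← pow_succ, h]
    push_cast
    ring
  have h3 := sq_int hp hp8 h1 h2
  refine ⟨h3, two_root (n + 1) z ?_⟩
  rw [h]
  exact_mod_cast h3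

/-- `d y ^ 2 = 1` in `ℚ_2` -/
theorem d_one {p : ℕ} (hp : p.Prime) (hp8 : p % 8 = 3 ∨ p % 8 = 5) {d : ℤ} (hd : d ∣ 2 * p)
    {z : ℚ_[2]} (h : (d : ℚ_[2]) * z ^ 2 = 1) : d = 1 ∧ (z = 1 ∨ z = -1) := by
  have hz0 : z ≠ 0 := by
    rintro rfl
    rw [zero_pow two_ne_zero, mul_zero] at h
    exact zero_ne_one h
  have h1 : d = 1 := sq_int hp hp8 hd (z := z⁻¹) (by
    rw [inv_pow]
    field_simp
    linear_combination -h)
  refine ⟨h1, ?_⟩
  rw [h1, Int.cast_one, one_mul] at h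
  exact two_root 1 z (by rw [pow_one]; exact h)

/-- `d y ^ 2 = - a ^ 4` in `ℚ_2` -/
theorem d_neg {p : ℕ} (hp : p.Prime) (hp8 : p % 8 = 3 ∨ p % 8 = 5) {a d : ℤ} (ha : a ≠ 0)
    (hd : d ∣ 2 * p) {z : ℚ_[2]} (h : (d : ℚ_[2]) * z ^ 2 = -(a : ℚ_[2]) ^ 4) :
    d = -1 ∧ (z = (a : ℚ_[2]) ^ 2 ∨ z = -(a : ℚ_[2]) ^ 2) := by
  have ha0 : (a : ℚ_[2]) ≠ 0 := by exact_mod_cast ha
  obtain ⟨h1, h2⟩ := d_one hp hp8 (d := -d) (by rwa [neg_dvd]) (z := z / (a : ℚ_[2]) ^ 2) (by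
    push_cast
    rw [div_pow]
    field_simp
    linear_combination -h)
  refine ⟨by omega, ?_⟩
  rcases h2 with h2 | h2
  · left
    rw [div_eq_one_iff_eq (pow_ne_zero 2 ha0)] at h2
    exact h2
  · right
    rw [div_eq_iff (pow_ne_zero 2 ha0)] at h2
    rw [h2]
    ring

end Pool.Agent.K3h82.PC
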