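import Pool.Agent.K3h82.PC.Cond
import Pool.Agent.K3h82.PC.Mono
import Pool.Agent.K3h82.PC.Vals
import Pool.Agent.K3h82.BT.Fin2

/-!
# Sections for the curves `d y ^ 2 = x ^ (2 ^ m) - a ^ 4` over `ℚ`
-/

set_option autoImplicit false
set_option linter.all false

open Polynomial FF Pool.Agent.Y157.PS Pool.Agent.TH954 IsDedekindDomain NumberField

namespace Pool.Agent.K3h82.PC

open Pool.Agent.K3h82.BT Pool.Agent.K3h82.OP Pool.Agent.K3h82.OT Pool.Agent.K3h82.FQ4
open Pool.Agent.Y158.GR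

section poly

variable {k Ω : Type} [Field k] [CharZero k] [Field Ω] [Algebra k Ω] [IsAlgClosed Ω]
  {ℓ : ℕ} [hℓ : Fact ℓ.Prime]

omit hℓ [CharZero k] in
theorem SE.of_poly [DecidableEq (algebraicClosure k Ω)] {f : k[X]} (hm : f.Monic)
    (hs : f.Separable)
    (hB : ℓ ∣ f.natDegree ∨ ℓ ∣ f.natDegree + 1) (h0 : 0 < f.natDegree) {d : k} (hd : d ≠ 0)
    {x y : Ω} (hx : Transcendental k x)
    (halg : Algebra.IsAlgebraic (IntermediateField.adjoin k {x}) Ω)
    (hxy : algebraMap k Ω d * y ^ ℓ = aeval x f) :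
    SE ℓ ((f.map (algebraMap k (algebraicClosure k Ω))).roots.toFinset) d x y := by
  have hac : IsAlgClosure k (algebraicClosure k Ω) := inferInstance
  have hkb : IsAlgClosed (algebraicClosure k Ω) := hac.1
  have hsp : (f.map (algebraMap k (algebraicClosure k Ω))).Splits := IsAlgClosed.splits _
  have hprod := split_prod (K' := algebraicClosure k Ω) hm hs hsp
  have hcard : ((f.map (algebraMap k (algebraicClosure k Ω))).roots.toFinset).card =
      f.natDegree := by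
    have h1 : (f.map (algebraMap k (algebraicClosure k Ω))).roots.Nodup := nodup_roots hs.map
    rw [Multiset.toFinset_card_of_nodup h1, ← hsp.natDegree_eq_card_roots, natDegree_map]
  refine ⟨hx, halg, hd, ?_, by rw [hcard]; exact hB, by rw [hcard]; exact h0⟩
  rw [hxy]
  have h1 := congrArg (fun q : (algebraicClosure k Ω)[X] => aeval x q) hprod
  simp only [Polynomial.aeval_map_algebraMap] at h1
  rw [h1, map_prod]
  refine Finset.prod_congr rfl fun e _ => ?_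
  rw [map_sub, aeval_X, aeval_C]
  rfl

end poly

section

attribute [-instance] DivisionRing.toRatAlgebra
attribute [local instance 1] DivisionRing.toRatAlgebra

variable {F Ω B : Type} [Field F] [Field Ω] [Field B] [Algebra ℚ F] [Algebra F Ω]
  [Algebra ℚ Ω] [Algebra ℚ B] [IsScalarTower ℚ F Ω] [IsAlgClosed Ω] [Algebra.IsAlgebraic F Ω]
  [IsAlgClosure ℚ B]
  {C₂ : Type} [Field C₂] [Algebra ℚ_[2] C₂] [Algebra ℚ C₂] [IsAlgClosure ℚ_[2] C₂]

/-- the value of the function `x ^ (2 ^ (n + 1)) / a` -/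
theorem pcVal {p : ℕ} (hp : p.Prime) {n : ℕ} {a d : ℤ} (ha : a ∣ 2 * p) (hd : d ∣ 2 * p)
    (N : IntermediateField F Ω) (s : GalSection ℚ F N B) (x y : N) (hxs : ∀ g, s.s g x = x)
    (hys : ∀ g, s.s g y = y) (hx : Transcendental ℚ (x : Ω))
    (hΩ : Algebra.IsAlgebraic (IntermediateField.adjoin ℚ {(x : Ω)}) Ω)
    (hxy : (d : N) * y ^ 2 = x ^ (2 ^ (n + 3)) - (a : N) ^ 4)
    (hN : ∀ z ∈ geomPro 2 ℚ (IntermediateField.adjoin ℚ {(x : Ω), (y : Ω)}) Ω, z ∈ N)
    (pl : Plc ℚ N C₂) (hpv : s.GivenBy ℚ_[2] pl) :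
    pl.val (x ^ (2 ^ (n + 1)) / (a : N)) 0 ∨ pl.val (x ^ (2 ^ (n + 1)) / (a : N)) 1 ∨
      pl.val (x ^ (2 ^ (n + 1)) / (a : N)) (-1) ∨ pl.val (x ^ (2 ^ (n + 1)) / (a : N))⁻¹ 0 := by
  classical
  haveI : Fact (Nat.Prime 2) := ⟨Nat.prime_two⟩
  haveI : Algebra.IsAlgebraic ℚ B := IsAlgClosure.isAlgebraic
  haveI : CharZero C₂ := charZero_of_injective_algebraMap (algebraMap ℚ_[2] C₂).injective
  haveI : CharZero N := charZero_of_injective_algebraMap (algebraMap ℚ N).injective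
  haveI : CharZero Ω := charZero_of_injective_algebraMap (algebraMap ℚ Ω).injective
  have h2p : (2 * p : ℤ) ≠ 0 := by
    have : (p : ℤ) ≠ 0 := by exact_mod_cast hp.ne_zero
    omega
  have hdvd0 : ∀ {d : ℤ}, d ∣ 2 * p → d ≠ 0 := by
    rintro d hd rfl
    exact h2p (zero_dvd_iff.1 hd)
  have ha0 := hdvd0 ha
  have hd0 := hdvd0 hd
  -- the squarefree part of `a d`
  obtain ⟨g, a', d', hg, haa, hdd, hcop⟩ : ∃ g a' d' : ℤ, g ≠ 0 ∧ a = g * a' ∧ d = g * d' ∧
      a' * d' ∣ 2 * p := by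
    have h1 : lcm a d ∣ 2 * p := lcm_dvd ha hd
    have h2 : Associated (gcd a d * lcm a d) (a * d) := gcd_mul_lcm a d
    have hg0 : gcd a d ≠ 0 := gcd_ne_zero_of_left ha0
    have hga := gcd_dvd_left a d
    have hgd := gcd_dvd_right a d
    generalize gcd a d = g at h2 hg0 hga hgd
    obtain ⟨a', ha'⟩ := hga
    obtain ⟨d', hd'⟩ := hgd
    refine ⟨g, a', d', hg0, ha', hd', ?_⟩
    have h3 : g * (g * (a' * d')) ∣ g * lcm a d := by
      have h4 : g * (g * (a' * d')) = a * d := by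
        calc g * (g * (a' * d')) = (g * a') * (g * d') := by ring
          _ = a * d := by rw [← ha', ← hd']
      rw [h4]
      exact h2.symm.dvd
    have h5 := (mul_dvd_mul_iff_left hg0).1 h3
    exact (Dvd.intro_left _ rfl).trans (h5.trans h1)
  obtain ⟨X, hX⟩ : ∃ X : N, X = x ^ (2 ^ (n + 1)) / (a : N) := ⟨_, rfl⟩
  obtain ⟨Y, hY⟩ : ∃ Y : N, Y = (g : N) * x ^ (2 ^ n) * y / (a : N) ^ 3 := ⟨_, rfl⟩
  rw [← hX]
  have haN : (a : N) ≠ 0 := by exact_mod_cast ha0
  have haN' : (a : N) = (g : N) * (a' : N) := by rw [haa]; push_cast; ring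
  have hdN' : (d : N) = (g : N) * (d' : N) := by rw [hdd]; push_cast; ring
  have hXY : ((a' * d' : ℤ) : N) * Y ^ 2 = X ^ 5 - X := by
    have h1 : x ^ (2 ^ (n + 1)) = (x ^ (2 ^ n)) ^ 2 := by rw [← pow_mul, ← pow_succ]
    have h2 : x ^ (2 ^ (n + 3)) = (x ^ (2 ^ n)) ^ 8 := by
      rw [← pow_mul]
      congr 1
      rw [pow_add]
      norm_num
    have h3 : (a : N) * (d : N) * y ^ 2 = (a : N) * ((x ^ (2 ^ n)) ^ 8 - (a : N) ^ 4) := by
      rw [← h2, ← hxy]; ring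
    have h4 : (((a' * d' : ℤ) : N) * (g : N) ^ 2) * y ^ 2 =
        (a : N) * ((x ^ (2 ^ n)) ^ 8 - (a : N) ^ 4) := by
      rw [← h3, haN', hdN']; push_cast; ring
    rw [hX, hY, h1]
    generalize x ^ (2 ^ n) = t at h4 ⊢
    field_simp
    linear_combination (t ^ 2) * h4
  -- the extension of the base field
  obtain ⟨F', i1, i2, i3, i4, i5, N', e, s', p', he, hS, hpv₁, hval, hmem, hs, hNN', -⟩ :=
    exists_ext s pl hpv {X, Y} (fun z hz h => by
      rcases hz with hz | hz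
      · rw [hz, hX, map_div₀, map_pow, hxs, map_intCast]
      · rw [Set.mem_singleton_iff] at hz
        rw [hz, hY, map_div₀, map_mul, map_mul, map_pow, map_pow, hxs, hys, map_intCast,
          map_intCast])
  obtain ⟨X', hX'⟩ := hS X (by simp)
  obtain ⟨Y', hY'⟩ := hS Y (by simp)
  have hinj : Function.Injective (algebraMap F' Ω) := (algebraMap F' Ω).injective
  have hXe : algebraMap F' N' X' = e X := by
    apply Subtype.ext
    rw [he]
    exact hX'
  have hYe : algebraMap F' N' Y' = e Y := by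
    apply Subtype.ext
    rw [he]
    exact hY'
  have hXΩ : (X : Ω) = (x : Ω) ^ (2 ^ (n + 1)) / (a : Ω) := by
    rw [hX]
    push_cast
    rfl
  have hYΩ : (Y : Ω) = (g : Ω) * (x : Ω) ^ (2 ^ n) * (y : Ω) / (a : Ω) ^ 3 := by
    rw [hY]
    push_cast
    rfl
  have haΩ : (a : Ω) ≠ 0 := by exact_mod_cast ha0
  have hxX : (x : Ω) ^ (2 ^ (n + 1)) = (a : Ω) * (X : Ω) := by
    rw [hXΩ]
    field_simp
  have hXt : Transcendental ℚ (X : Ω) := by
    intro h
    apply hx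
    have h1 : IsAlgebraic ℚ ((x : Ω) ^ (2 ^ (n + 1))) := by
      rw [hxX]
      exact (isAlgebraic_int a).mul h
    exact h1.of_pow (by positivity)
  have hXalg : Algebra.IsAlgebraic (IntermediateField.adjoin ℚ {(X : Ω)}) Ω := by
    refine alg_chg (X := (x : Ω)) hΩ (n := 2 ^ (n + 1)) (by positivity) ?_
    rw [hxX]
    refine mul_mem ?_ (IntermediateField.mem_adjoin_simple_self _ _)
    have := (IntermediateField.adjoin ℚ {(X : Ω)}).algebraMap_mem (a : ℚ)
    rwa [map_intCast] at this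
  -- the inclusion of the towers
  have hfxy : SE 2 (((Polynomial.X ^ (2 ^ (n + 3)) - C ((a : ℚ) ^ 4) : ℚ[X]).map
      (algebraMap ℚ (algebraicClosure ℚ Ω))).roots.toFinset) (d : ℚ) (x : Ω) (y : Ω) := by
    have hdeg : (Polynomial.X ^ (2 ^ (n + 3)) - C ((a : ℚ) ^ 4) : ℚ[X]).natDegree = 2 ^ (n + 3) :=
      natDegree_X_pow_sub_C
    refine SE.of_poly (monic_X_pow_sub_C _ (by positivity)) ?_ ?_ ?_ (by exact_mod_cast hd0) hx hΩ ?_
    · exact separable_X_pow_sub_C _ (by positivity) (by positivity)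
    · rw [hdeg]
      exact Or.inl (dvd_pow_self 2 (by omega))
    · rw [hdeg]
      positivity
    · have h1 := congrArg (algebraMap N Ω) hxy
      rw [map_mul, map_pow, map_sub, map_pow, map_pow, map_intCast, map_intCast] at h1
      rw [map_sub, map_pow, aeval_X, aeval_C, map_pow, map_intCast, map_intCast]
      exact h1
  have hfXY : SE 2 (((Polynomial.X ^ 5 - Polynomial.X : ℚ[X]).map
      (algebraMap ℚ (algebraicClosure ℚ Ω))).roots.toFinset) ((a' * d' : ℤ) : ℚ) (X : Ω) (Y : Ω) := by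
    have hdeg : (Polynomial.X ^ 5 - Polynomial.X : ℚ[X]).natDegree = 5 := by compute_degree!
    refine SE.of_poly (by monicity!) ?_ ?_ ?_ ?_ hXt hXalg ?_
    · have hA : (4 : ℚ[X]) * C (5 / 4) = 5 := by
        rw [← map_ofNat C 4, ← C_mul, ← map_ofNat C 5]
        norm_num
      have hder : derivative (Polynomial.X ^ 5 - Polynomial.X : ℚ[X]) =
          5 * Polynomial.X ^ 4 - 1 := by
        rw [derivative_sub, derivative_X_pow, derivative_X]
        norm_num
        exact map_ofNat C 5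
      refine ⟨-(5 * C (5 / 4)) * Polynomial.X ^ 3, C (5 / 4) * Polynomial.X ^ 4 - 1, ?_⟩
      rw [hder]
      linear_combination Polynomial.X ^ 4 * hA
    · rw [hdeg]
      exact Or.inr (by norm_num)
    · rw [hdeg]
      norm_num
    · have h1 : a' * d' ≠ 0 := hdvd0 hcop
      exact_mod_cast h1
    · have h1 := congrArg (algebraMap N Ω) hXY
      rw [map_mul, map_pow, map_sub, map_pow, map_intCast] at h1
      rw [map_sub, map_pow, aeval_X, map_intCast]
      exact h1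
  have hmono : ∀ z ∈ geomPro 2 ℚ (IntermediateField.adjoin ℚ {(X : Ω), (Y : Ω)}) Ω,
      z ∈ geomPro 2 ℚ (IntermediateField.adjoin ℚ {(x : Ω), (y : Ω)}) Ω := by
    intro z hz
    have hxR : (x : Ω) ∈ IntermediateField.adjoin (algebraicClosure ℚ Ω) {(x : Ω)} :=
      IntermediateField.mem_adjoin_simple_self _ _
    have hint : ∀ (m : ℤ), (m : Ω) ∈ IntermediateField.adjoin (algebraicClosure ℚ Ω) {(x : Ω)} :=
      fun m => intCast_mem _ m
    refine SE.mono hfXY hfxy ?_ ?_ hz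
    · rw [hXΩ]
      exact div_mem (pow_mem hxR _) (hint a)
    · rw [hYΩ]
      have hR : ∀ w ∈ IntermediateField.adjoin (algebraicClosure ℚ Ω) {(x : Ω)}, w ∈
          IntermediateField.adjoin (IntermediateField.adjoin (algebraicClosure ℚ Ω) {(x : Ω)})
            {(y : Ω)} := fun w hw => (IntermediateField.adjoin (IntermediateField.adjoin
              (algebraicClosure ℚ Ω) {(x : Ω)}) {(y : Ω)}).algebraMap_mem ⟨w, hw⟩
      exact div_mem (mul_mem (hR _ (mul_mem (hint g) (pow_mem hxR _)))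
        (IntermediateField.mem_adjoin_simple_self _ _)) (hR _ (pow_mem (hint a) _))
  obtain ⟨h1, -⟩ := btQ hp hcop X' (by
      intro h
      apply hXt
      rw [← hX']
      exact h.algebraMap) (alg_down (by rw [hX']; exact hXalg)) N' s' (algebraMap F' N' Y') (by
      rw [map_sub, map_pow, hXe, hYe]
      have h1 := congrArg e hXY
      rw [map_mul, map_pow, map_sub, map_pow, map_intCast] at h1
      exact h1) (fun h => by
        rw [hYe, hs, hY, map_div₀, map_mul, map_mul, map_pow, map_pow, hxs, hys, map_intCast,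
          map_intCast]) (fun z hz => (hNN' z).2 (hN z (hmono z (by
        rw [hX'] at hz
        have h2 : ((algebraMap F' N' Y' : N') : Ω) = (Y : Ω) := hY'
        rwa [h2] at hz)))) p' hpv₁
  rw [hXe, ← map_inv₀, hval, hval, hval, hval] at h1
  exact h1

/-- the local point is a rational point of the curve -/
theorem pcPoint {p : ℕ} (hp : p.Prime) (hp8 : p % 8 = 3 ∨ p % 8 = 5) {n : ℕ} {a d : ℤ}
    (ha : a ∣ 2 * p) (hd : d ∣ 2 * p)
    (N : IntermediateField F Ω) (s : GalSection ℚ F N B) (x y : N) (hxs : ∀ g, s.s g x = x)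
    (hys : ∀ g, s.s g y = y) (hx : Transcendental ℚ (x : Ω))
    (hΩ : Algebra.IsAlgebraic (IntermediateField.adjoin ℚ {(x : Ω)}) Ω)
    (hxy : (d : N) * y ^ 2 = x ^ (2 ^ (n + 3)) - (a : N) ^ 4)
    (hN : ∀ z ∈ geomPro 2 ℚ (IntermediateField.adjoin ℚ {(x : Ω), (y : Ω)}) Ω, z ∈ N)
    (pl : Plc ℚ N C₂) (hpv : s.GivenBy ℚ_[2] pl) :
    (a ^ 2 = 1 ∧ (pl.val x 1 ∨ pl.val x (-1)) ∧ pl.val y 0) ∨
    (d = -1 ∧ pl.val x 0 ∧ (pl.val y ((a : C₂) ^ 2) ∨ pl.val y (-(a : C₂) ^ 2))) ∨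
    (d = 1 ∧ pl.val x⁻¹ 0 ∧ (pl.val (y * x⁻¹ ^ (2 ^ (n + 2))) 1 ∨
      pl.val (y * x⁻¹ ^ (2 ^ (n + 2))) (-1))) := by
  haveI : Algebra.IsAlgebraic ℚ B := IsAlgClosure.isAlgebraic
  haveI : Normal ℚ B := IsAlgClosure.normal ℚ B
  haveI : CharZero C₂ := charZero_of_injective_algebraMap (algebraMap ℚ_[2] C₂).injective
  haveI : CharZero N := charZero_of_injective_algebraMap (algebraMap ℚ N).injective
  have h2p : (2 * p : ℤ) ≠ 0 := by
    have : (p : ℤ) ≠ 0 := by exact_mod_cast hp.ne_zero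
    omega
  have hdvd0 : ∀ {d : ℤ}, d ∣ 2 * p → d ≠ 0 := by
    rintro d hd rfl
    exact h2p (zero_dvd_iff.1 hd)
  have ha0 := hdvd0 ha
  have hd0 := hdvd0 hd
  have haN : (a : N) ≠ 0 := by exact_mod_cast ha0
  have haC : (a : C₂) ≠ 0 := by exact_mod_cast ha0
  have hdC : (d : C₂) ≠ 0 := by exact_mod_cast hd0
  have hZ : ∀ m : ℤ, pl.val ((m : ℤ) : N) (m : C₂) := by
    intro m
    have h4 := Plc.val_alg (pl := pl) (m : ℚ)
    rwa [map_intCast, map_intCast] at h4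
  -- the values of fixed elements are in `ℚ_2`
  have hrat : ∀ z : N, (∀ g, s.s g z = z) → ∀ c : C₂, pl.val z c →
      ∃ r : ℚ_[2], algebraMap ℚ_[2] C₂ r = c := by
    intro z hz c hc
    obtain ⟨r, hr⟩ := fixL_val (Lv := ℚ_[2]) hpv z hz hc.mem
    obtain ⟨hm, h3⟩ := hc
    exact ⟨r, hr.trans h3⟩
  have hx0 : x ≠ 0 := by
    rintro rfl
    apply hx
    rw [ZeroMemClass.coe_zero]
    exact isAlgebraic_zero
  -- the value of `x ^ (2 ^ (n + 1))`
  have hfin : ∀ c : ℤ, pl.val (x ^ (2 ^ (n + 1)) / (a : N)) (c : C₂) →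
      ∃ r : ℚ_[2], pl.val x (algebraMap ℚ_[2] C₂ r) ∧ r ^ (2 ^ (n + 1)) = a * c := by
    intro c hc
    have h1 : pl.val (x ^ (2 ^ (n + 1))) ((a : C₂) * c) := by
      have h2 := (hZ a).mul hc
      rwa [mul_div_cancel₀ _ haN] at h2
    have h2 : x ∈ pl.W := Plc.mem_of_pow_mem (by positivity : 0 < 2 ^ (n + 1)) h1.mem
    obtain ⟨c', hc'⟩ := Plc.val_of_mem h2
    obtain ⟨r, rfl⟩ := hrat x hxs c' hc'
    refine ⟨r, hc', ?_⟩
    apply (algebraMap ℚ_[2] C₂).injective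
    rw [map_pow, map_mul, map_intCast, map_intCast]
    exact (hc'.pow _).unique h1
  -- the value of `y`
  have hyval : ∀ r : ℚ_[2], pl.val x (algebraMap ℚ_[2] C₂ r) →
      ∃ r' : ℚ_[2], pl.val y (algebraMap ℚ_[2] C₂ r') ∧
        (d : ℚ_[2]) * r' ^ 2 = r ^ (2 ^ (n + 3)) - (a : ℚ_[2]) ^ 4 := by
    intro r hr
    have h1 : pl.val (y ^ 2) ((d : C₂)⁻¹ *
        ((algebraMap ℚ_[2] C₂ r) ^ (2 ^ (n + 3)) - (a : C₂) ^ 4)) := by
      have h2 : y ^ 2 = (d : N)⁻¹ * (x ^ (2 ^ (n + 3)) - (a : N) ^ 4) := by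
        rw [← hxy, inv_mul_cancel_left₀ (by exact_mod_cast hd0)]
      rw [h2]
      exact ((hZ d).inv hdC).mul ((hr.pow _).sub ((hZ a).pow 4))
    have h2 : y ∈ pl.W := Plc.mem_of_pow_mem (by norm_num : 0 < 2) h1.mem
    obtain ⟨c', hc'⟩ := Plc.val_of_mem h2
    obtain ⟨r', rfl⟩ := hrat y hys c' hc'
    refine ⟨r', hc', ?_⟩
    apply (algebraMap ℚ_[2] C₂).injective
    have h3 := (hc'.pow 2).unique h1
    rw [map_mul, map_pow, map_sub, map_pow, map_pow, map_intCast, map_intCast, h3,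
      mul_inv_cancel_left₀ hdC]
  have hone : ∀ c : ℤ, (c = 1 ∨ c = -1) → pl.val (x ^ (2 ^ (n + 1)) / (a : N)) (c : C₂) →
      (a ^ 2 = 1 ∧ (pl.val x 1 ∨ pl.val x (-1)) ∧ pl.val y 0) := by
    intro c hc hv
    obtain ⟨r, hr, hr2⟩ := hfin c hv
    obtain ⟨h1, h2⟩ := pow_int hp hp8 ha hc hr2
    have h3 : a ^ 2 = 1 := by
      rcases hc with rfl | rfl
      · rw [mul_one] at h1
        rw [h1, one_pow]
      · have h4 : a = -1 := by omega
        rw [h4]
        norm_num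
    refine ⟨h3, ?_, ?_⟩
    · rcases h2 with rfl | rfl
      · left
        rwa [map_one] at hr
      · right
        rwa [map_neg, map_one] at hr
    · obtain ⟨r', hr', h4⟩ := hyval r hr
      have h5 : r ^ (2 ^ (n + 3)) = 1 := by
        rcases h2 with rfl | rfl
        · exact one_pow _
        · exact Even.neg_one_pow (Nat.even_pow.2 ⟨even_two, by omega⟩)
      have h6 : (a : ℚ_[2]) ^ 4 = 1 := by
        have h7 : (a : ℚ_[2]) ^ 2 = 1 := by exact_mod_cast h3
        calc (a : ℚ_[2]) ^ 4 = ((a : ℚ_[2]) ^ 2) ^ 2 := by ring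
          _ = 1 := by rw [h7, one_pow]
      rw [h5, h6, sub_self] at h4
      have h7 : r' = 0 := by
        have hdQ : (d : ℚ_[2]) ≠ 0 := by exact_mod_cast hd0
        exact pow_eq_zero_iff two_ne_zero |>.1 ((mul_eq_zero.1 h4).resolve_left hdQ)
      rwa [h7, map_zero] at hr'
  rcases pcVal hp ha hd N s x y hxs hys hx hΩ hxy hN pl hpv with h | h | h | h
  · -- `x = 0`
    right; left
    obtain ⟨r, hr, hr2⟩ := hfin 0 (by rwa [Int.cast_zero])
    rw [Int.cast_zero, mul_zero] at hr2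
    have hr0 : r = 0 := pow_eq_zero_iff (by positivity) |>.1 hr2
    subst hr0
    obtain ⟨r', hr', h4⟩ := hyval 0 hr
    rw [zero_pow (by positivity), zero_sub] at h4
    obtain ⟨h5, h6⟩ := d_neg hp hp8 ha0 hd h4
    refine ⟨h5, by rwa [map_zero] at hr, ?_⟩
    rcases h6 with rfl | rfl
    · left
      rwa [map_pow, map_intCast] at hr'
    · right
      rwa [map_neg, map_pow, map_intCast] at hr'
  · exact Or.inl (hone 1 (Or.inl rfl) (by rwa [Int.cast_one]))
  · exact Or.inl (hone (-1) (Or.inr rfl) (by rwa [Int.cast_neg, Int.cast_one]))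
  · -- `x = ∞`
    right; right
    have h1 : pl.val (x⁻¹ ^ (2 ^ (n + 1))) 0 := by
      have h2 := h.mul ((hZ a).inv haC)
      rw [zero_mul] at h2
      have h3 : (x ^ (2 ^ (n + 1)) / (a : N))⁻¹ * (a : N)⁻¹ = x⁻¹ ^ (2 ^ (n + 1)) := by
        rw [inv_div, inv_pow]
        field_simp
      rwa [h3] at h2
    have h2 : x⁻¹ ∈ pl.W := Plc.mem_of_pow_mem (by positivity : 0 < 2 ^ (n + 1)) h1.mem
    obtain ⟨c, hc⟩ := Plc.val_of_mem h2
    have hc0 : c = 0 := pow_eq_zero_iff (by positivity) |>.1 ((hc.pow _).unique h1)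
    subst hc0
    obtain ⟨η, hη⟩ : ∃ η : N, η = y * x⁻¹ ^ (2 ^ (n + 2)) := ⟨_, rfl⟩
    rw [← hη]
    have h3 : η ^ 2 = (d : N)⁻¹ * (1 - (a : N) ^ 4 * x⁻¹ ^ (2 ^ (n + 3))) := by
      have h4 : (d : N) * η ^ 2 = 1 - (a : N) ^ 4 * x⁻¹ ^ (2 ^ (n + 3)) := by
        have h5 : (x⁻¹ ^ (2 ^ (n + 2))) ^ 2 = x⁻¹ ^ (2 ^ (n + 3)) := by
          rw [← pow_mul, ← pow_succ]
        have h6 : x ^ (2 ^ (n + 3)) * x⁻¹ ^ (2 ^ (n + 3)) = 1 := by
          rw [← mul_pow, mul_inv_cancel₀ hx0, one_pow]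
        rw [hη, mul_pow, h5, ← mul_assoc, hxy, sub_mul, h6]
      rw [← h4, inv_mul_cancel_left₀ (by exact_mod_cast hd0)]
    have h4 : pl.val (η ^ 2) ((d : C₂)⁻¹ * (1 - (a : C₂) ^ 4 * 0 ^ (2 ^ (n + 3)))) := by
      rw [h3]
      exact ((hZ d).inv hdC).mul (Plc.val_one.sub (((hZ a).pow 4).mul (hc.pow _)))
    have h5 : η ∈ pl.W := Plc.mem_of_pow_mem (by norm_num : 0 < 2) h4.mem
    obtain ⟨c', hc'⟩ := Plc.val_of_mem h5
    obtain ⟨r', rfl⟩ := hrat η (fun g => by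
      rw [hη, map_mul, map_pow, map_inv₀, hxs, hys]) c' hc'
    have h6 := (hc'.pow 2).unique h4
    obtain ⟨h7, h8⟩ := d_one hp hp8 hd (z := r') (by
      apply (algebraMap ℚ_[2] C₂).injective
      rw [map_mul, map_pow, map_intCast, h6, mul_inv_cancel_left₀ hdC,
        zero_pow (by positivity), mul_zero, sub_zero, map_one])
    refine ⟨h7, hc, ?_⟩
    rcases h8 with rfl | rfl
    · left
      rwa [map_one] at hc'
    · right
      rwa [map_neg, map_one] at hc'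

end

end Pool.Agent.K3h82.PC
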