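import Pool.Agent.K3h82.PC.Core
import Pool.Agent.K3h82.OT.Fin
import Pool.Agent.K3h82.OP.Ari

/-!
# The conditions at `2` for curves over `ℚ`
-/

set_option autoImplicit false
set_option linter.all false

open Polynomial FF Pool.Agent.Y157.PS Pool.Agent.TH954 IsDedekindDomain NumberField

namespace Pool.Agent.K3h82.PC

open Pool.Agent.K3h82.BT Pool.Agent.K3h82.OP Pool.Agent.K3h82.OT
open Pool.Agent.Y158.GR

/-- an automorphism and iterated square roots of elements of the base field -/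
theorem pow_two_fix {K K' : Type} [Field K] [Field K'] [Algebra K K'] (σ : K' ≃ₐ[K] K') (j : ℕ) :
    ∀ (z : K') (b : K), z ^ (2 ^ j) = algebraMap K K' b → (σ ^ (2 ^ j)) z = z := by
  have hμ : ∀ (τ : K' ≃ₐ[K] K') (c : K'), c ^ 2 = 1 → τ c = c := by
    intro τ c hc
    have h0 : (c - 1) * (c + 1) = 0 := by linear_combination hc
    rcases mul_eq_zero.1 h0 with h | h
    · rw [sub_eq_zero.1 h, map_one]
    · rw [eq_neg_of_add_eq_zero_left h, map_neg, map_one]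
  induction j with
  | zero =>
    intro z b hz
    rw [pow_zero, pow_one] at hz
    rw [pow_zero, pow_one, hz, σ.commutes]
  | succ j ih =>
    intro z b hz
    have h1 := ih (z ^ 2) b (by rw [← pow_mul, ← pow_succ']; exact hz)
    rw [pow_succ, pow_mul]
    exact pow_fix two_ne_zero hμ (σ ^ (2 ^ j)) h1

/-- the Galois group of `X ^ (2 ^ m) - b` is a `2`-group -/
theorem gal_pow {K K' : Type} [Field K] [Field K'] [Algebra K K'] (m : ℕ) (b : K) {f : K[X]}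
    (hf : f = X ^ (2 ^ m) - C b) (hK' : Algebra.adjoin K (f.rootSet K') = ⊤) (σ : K' ≃ₐ[K] K') :
    σ ^ (2 ^ m) = 1 := by
  have h1 : ((σ ^ (2 ^ m) : K' ≃ₐ[K] K') : K' →ₐ[K] K') = AlgHom.id K K' := by
    refine AlgHom.ext_of_adjoin_eq_top hK' fun e he => ?_
    have h2 : aeval e f = 0 := (Polynomial.mem_rootSet.1 he).2
    rw [hf, map_sub, map_pow, aeval_X, aeval_C, sub_eq_zero] at h2
    exact pow_two_fix σ m e b h2
  ext z
  exact DFunLike.congr_fun h1 z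

/-- **the conditions at `2`** -/
theorem cond_two {p n : ℕ} {f : ℤ[X]} {d : ℤ} (hp : p.Prime) (hp8 : p % 8 = 3 ∨ p % 8 = 5)
    (hm : f.Monic) (hd : d ∣ (2 * p) ^ n)
    (hb : ∃ u w : ℤ[X], u * f + w * derivative f = C ((2 * (p : ℤ)) ^ n))
    {C₂ : Type} [Field C₂] [Algebra ℚ_[2] C₂] [Algebra ℚ C₂] [IsScalarTower ℚ ℚ_[2] C₂]
    [IsAlgClosure ℚ_[2] C₂] :
    (d : ℚ) ≠ 0 ∧ (f.map (Int.castRingHom ℚ)).Separable ∧
    ∀ (K' : Type) [Field K'] [NumberField K'] [Algebra ℚ K'] [Normal ℚ K'],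
      Algebra.adjoin ℚ ((f.map (Int.castRingHom ℚ)).rootSet K') = ⊤ →
      (∀ σ : K' ≃ₐ[ℚ] K', ∃ n : ℕ, σ ^ (2 ^ n) = 1) →
      ∀ (E : Finset K'), (∀ e ∈ E, aeval e (f.map (Int.castRingHom ℚ)) = 0) →
        ∀ i : K' →ₐ[ℚ] C₂,
        AllAt ℚ_[2] i ∧ LocAt 2 ℚ_[2] i (GoodAt 2 E (algebraMap ℚ K' (d : ℚ))) := by
  haveI : Fact (Nat.Prime 2) := ⟨Nat.prime_two⟩
  have h2p : ((2 * p : ℤ) ^ n) ≠ 0 := by
    have : (p : ℤ) ≠ 0 := by exact_mod_cast hp.ne_zero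
    exact pow_ne_zero n (mul_ne_zero two_ne_zero this)
  have h2pQ : (((2 * p : ℤ) ^ n : ℤ) : ℚ) ≠ 0 := by exact_mod_cast h2p
  have hd0 : (d : ℚ) ≠ 0 := by
    have h4 : d ≠ 0 := by
      rintro rfl
      exact h2p (zero_dvd_iff.1 hd)
    exact_mod_cast h4
  have hζ : IsPrimitiveRoot (-1 : ℚ) 2 := IsPrimitiveRoot.neg_one 0 (by norm_num)
  obtain ⟨u, w, huw⟩ := hb
  obtain ⟨c, hc⟩ : ∃ c : ℚ, c = (((2 * p : ℤ) ^ n : ℤ) : ℚ)⁻¹ := ⟨_, rfl⟩
  have hbez : (C c * u.map (Int.castRingHom ℚ)) * f.map (Int.castRingHom ℚ) +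
      (C c * w.map (Int.castRingHom ℚ)) * derivative (f.map (Int.castRingHom ℚ)) = 1 := by
    have h4 := congrArg (Polynomial.map (Int.castRingHom ℚ)) huw
    rw [Polynomial.map_add, Polynomial.map_mul, Polynomial.map_mul, Polynomial.map_C,
      ← Polynomial.derivative_map] at h4
    have h5 : C c * C ((Int.castRingHom ℚ) ((2 * p : ℤ) ^ n)) = (1 : ℚ[X]) := by
      rw [← C_mul, hc, eq_intCast, inv_mul_cancel₀ h2pQ, C_1]
    rw [← h5, ← h4]
    ring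
  have hs : (f.map (Int.castRingHom ℚ)).Separable := ⟨_, _, hbez⟩
  have key : ∀ v : HeightOneSpectrum (𝓞 ℚ), (2 : 𝓞 ℚ) ∉ v.asIdeal → (p : 𝓞 ℚ) ∉ v.asIdeal →
      ∀ m : ℤ, m ∣ (2 * p) ^ n → v.valuation ℚ (m : ℚ) = 1 := by
    intro v h2 hpv m hm
    have h3 : (m : ℚ) = algebraMap (𝓞 ℚ) ℚ (m : 𝓞 ℚ) := by rw [map_intCast]
    rw [h3, v.valuation_of_algebraMap, v.intValuation_eq_one_iff]
    intro h4
    obtain ⟨e, he⟩ := hm
    have h5 : (((2 * p) ^ n : ℤ) : 𝓞 ℚ) ∈ v.asIdeal := by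
      rw [he]
      push_cast
      exact Ideal.mul_mem_right _ _ h4
    push_cast at h5
    rcases v.isPrime.mem_or_mem (v.isPrime.mem_of_pow_mem _ h5) with h6 | h6
    · exact h2 h6
    · exact hpv h6
  have hint : ∀ (v : HeightOneSpectrum (𝓞 ℚ)) (q : ℤ[X]),
      IntAt v (q.map (Int.castRingHom ℚ)) := by
    intro v q k
    rw [coeff_map, eq_intCast]
    have h3 : ((q.coeff k : ℤ) : ℚ) = algebraMap (𝓞 ℚ) ℚ ((q.coeff k : ℤ) : 𝓞 ℚ) := by
      rw [map_intCast]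
    rw [h3]
    exact v.valuation_le_one _
  have hloc : LocPow 2 ℚ_[2] (GoodPl 2 (f.map (Int.castRingHom ℚ)) (d : ℚ)) := by
    refine locPow_two hp hp8 (fun v h2 hpv => ?_)
    have hcv : v.valuation ℚ c = 1 := by
      rw [hc, map_inv₀, key v h2 hpv _ dvd_rfl, inv_one]
    have hcq : ∀ q : ℤ[X], IntAt v (C c * q.map (Int.castRingHom ℚ)) := by
      intro q k
      rw [coeff_C_mul, map_mul, hcv, one_mul]
      exact hint v q k
    exact ⟨by exact_mod_cast h2, ⟨1, by rw [one_pow]; exact key v h2 hpv d hd⟩, hint v f, _, _,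
      hcq u, hcq w, hbez⟩
  refine ⟨hd0, hs, fun K' _ _ _ _ hK' hpow E hE i => ?_⟩
  exact tower_cond hζ (hm.map _) hd0 hloc hK' hpow E hE i

end Pool.Agent.K3h82.PC
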