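import Pool.Agent.K3h82.PC.PtF
import Pool.Agent.K3h82.OT.Main2

/-!
# Sections which are locally given by a point with rational coordinates (3)
-/

set_option autoImplicit false
set_option linter.all false

open Polynomial FF Pool.Agent.Y157.PS Pool.Agent.TH954 IsDedekindDomain NumberField

namespace Pool.Agent.K3h82.PC

open Pool.Agent.K3h82.BT Pool.Agent.K3h82.OP Pool.Agent.K3h82.OT
open Pool.Agent.Y158.GR
open Pool.Agent.Y158.FQ (geomPro_base)

section core

variable {K K' : Type} [Field K] [NumberField K] [Field K'] [NumberField K'] [Algebra K K']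
  {F Ω Bc : Type} [Field F] [Field Ω] [Field Bc]
  [Algebra K F] [Algebra F Ω] [Algebra K Ω] [Algebra K Bc] [IsScalarTower K F Ω] [IsAlgClosed Ω]
  [Algebra.IsAlgebraic F Ω] [IsAlgClosure K Bc] {ℓ : ℕ} [hp : Fact ℓ.Prime] {ζ : K'}
  {C L : Type} [Field C] [Field L] [Algebra L C] [Algebra K C] [Algebra K L]
  [IsScalarTower K L C] [CharZero L] [IsAlgClosure L C]
  [Algebra K' Ω] [IsScalarTower K K' Ω] [Algebra K' Bc] [IsScalarTower K K' Bc]
  [Algebra K' C] [IsScalarTower K K' C]
  {L' : Type} [Field L'] [Algebra L L'] [Algebra K' L'] [Algebra L' C] [IsScalarTower L L' C]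
  [IsScalarTower K' L' C] [CharZero L'] [IsAlgClosure L' C]

include hp in
theorem coreP (hζ : IsPrimitiveRoot ζ ℓ) {E : Finset K'} (hE : ℓ ∣ E.card ∨ ℓ ∣ E.card + 1)
    (h3 : 3 ≤ E.card + ninf ℓ E.card) {d : K} (hd : d ≠ 0) {f : K[X]}
    (hf : f.map (algebraMap K K') = ∏ e ∈ E, (X - Polynomial.C e))
    (hinj : LocPow ℓ L' (GoodAt ℓ E (algebraMap K K' d))) (N : IntermediateField F Ω) (x y : N)
    (hx : Transcendental K (x : Ω))
    (hΩ : Algebra.IsAlgebraic (IntermediateField.adjoin K {(x : Ω)}) Ω)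
    (hxy : algebraMap K Ω d * (y : Ω) ^ ℓ = aeval (x : Ω) f)
    (hN : ∀ z ∈ geomPro ℓ K (IntermediateField.adjoin K {(x : Ω), (y : Ω)}) Ω, z ∈ N)
    (s : GalSection K F N Bc)
    (hsx : ∀ σ, s.s σ x = x) (hsy : ∀ σ, s.s σ y = y)
    (hKs : ∀ c : K', ((s.j (algebraMap K' Bc c) : N) : Ω) = algebraMap K' Ω c) (p : Plc K N C)
    (hpv : s.GivenBy L p) (hKC : ∀ c : K', p.val (s.j (algebraMap K' Bc c)) (algebraMap K' C c))
    (hpt : RatAt K p x y (mm ℓ E.card)) (γ : Bc ≃ₐ[K'] Bc) (z : N)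
    (hz : (z : Ω) ∈ geomPro ℓ K (IntermediateField.adjoin K {(x : Ω), (y : Ω)}) Ω) :
    s.s (γ.restrictScalars K) z ∈ p.W ↔ z ∈ p.W := by
  classical
  haveI : Algebra.IsAlgebraic K Bc := IsAlgClosure.isAlgebraic
  haveI : IsAlgClosed Bc := IsAlgClosure.isAlgClosed K
  haveI : Algebra.IsAlgebraic K' Bc := Algebra.IsAlgebraic.tower_top (K := K) K'
  haveI : IsAlgClosure K' Bc := ⟨inferInstance, inferInstance⟩
  haveI : FiniteDimensional K K' := Module.Finite.of_restrictScalars_finite ℚ K K'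
  have hd' : algebraMap K K' d ≠ 0 := (_root_.map_ne_zero _).2 hd
  have hgeo : ∀ z : Ω, z ∈ geomPro ℓ K' (IntermediateField.adjoin K' {(x : Ω), (y : Ω)}) Ω ↔
      z ∈ geomPro ℓ K (IntermediateField.adjoin K {(x : Ω), (y : Ω)}) Ω :=
    geomPro_base (k := K) (K := K') (F' := Ω) (X := (x : Ω)) (Y := (y : Ω))
        (u := (x : Ω)) (w := (y : Ω)) (c := 1) (c' := 1)
        (one_mem _) (one_mem _) one_ne_zero one_ne_zero (by rw [one_mul]; rfl)
        (by rw [one_mul]; rfl)
  have hx' : Transcendental K' (x : Ω) := fun h => hx (h.restrictScalars K)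
  have hΩ' : Algebra.IsAlgebraic (IntermediateField.adjoin K' {(x : Ω)}) Ω := by
    constructor
    intro z
    have h1 := hΩ.isAlgebraic z
    have hle : ∀ w ∈ IntermediateField.adjoin K {(x : Ω)},
        w ∈ IntermediateField.adjoin K' {(x : Ω)} := by
      refine adjoin_le_sub (K := K) (T := (IntermediateField.adjoin K' {(x : Ω)}).toSubfield)
        (fun c => ?_) (fun u hu => IntermediateField.subset_adjoin K' _ hu)
      rw [IsScalarTower.algebraMap_apply K K' Ω]
      exact (IntermediateField.adjoin K' {(x : Ω)}).algebraMap_mem _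
    let φ : IntermediateField.adjoin K {(x : Ω)} →+* IntermediateField.adjoin K' {(x : Ω)} :=
      { toFun := fun w => ⟨w.1, hle _ w.2⟩
        map_one' := rfl
        map_mul' := fun _ _ => rfl
        map_zero' := rfl
        map_add' := fun _ _ => rfl }
    obtain ⟨q, hq0, hq⟩ := h1
    refine ⟨q.map φ, (Polynomial.map_ne_zero_iff φ.injective).2 hq0, ?_⟩
    rw [Polynomial.aeval_def, Polynomial.eval₂_map]
    exact hq
  have hfΩ : aeval (x : Ω) f = ∏ e ∈ E, ((x : Ω) - algebraMap K' Ω e) := by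
    have h1 := congrArg (fun q : K'[X] => aeval (x : Ω) q) hf
    simp only [Polynomial.aeval_map_algebraMap] at h1
    rw [h1, map_prod]
    refine Finset.prod_congr rfl fun e _ => ?_
    rw [map_sub, aeval_X, aeval_C]
  obtain ⟨F', i1, i2, i3, i4, i5, N', e, s', -, he, hjs, -, hs, -, hNN', hP⟩ :=
    exists_base (C := C) L s s hKs hKs
  obtain ⟨p', hpv', hval, hmem⟩ := hP p hpv hKC
  have hpv'' : s'.GivenBy L' p' := fun τ g h => hpv' (τ.restrictScalars L) g h
  have key := ptNP (K := K') hζ hE h3 hd' hinj N' (e x) (e y) (by rw [he]; exact hx')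
    (by rw [he]; exact hΩ') (by
      apply (algebraMap N' Ω).injective
      rw [map_mul, map_pow, map_prod]
      simp only [map_sub]
      have h1 : ∀ c : K', algebraMap N' Ω (algebraMap K' N' c) = algebraMap K' Ω c := fun c => rfl
      have h2 : ∀ z : N, algebraMap N' Ω (e z) = (z : Ω) := fun z => he z
      simp only [h1, h2]
      rw [← hfΩ, ← hxy, ← IsScalarTower.algebraMap_apply])
    (fun z hz => (hNN' z).2 (hN z ((hgeo z).1 (by rw [he, he] at hz; exact hz)))) s'
    (fun σ => by rw [hs, hsx]) (fun σ => by rw [hs, hsy]) p' hpv'' (by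
      rcases hpt with ⟨c, c', hc, hc'⟩ | ⟨h0, c', hc'⟩
      · refine Or.inl ⟨algebraMap K K' c, algebraMap K K' c', ?_, ?_⟩
        · rw [← IsScalarTower.algebraMap_apply]
          exact (hval _ _).2 hc
        · rw [← IsScalarTower.algebraMap_apply]
          exact (hval _ _).2 hc'
      · refine Or.inr ⟨?_, algebraMap K K' c', ?_⟩
        · rw [← map_inv₀]
          exact (hval _ _).2 h0
        · rw [← map_inv₀, ← map_pow, ← map_mul, ← IsScalarTower.algebraMap_apply]
          exact (hval _ _).2 hc')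
  have h1 := key γ (e z) (by rw [he, he, he]; exact (hgeo _).2 hz)
  rw [hs, hmem, hmem] at h1
  exact h1

end core

section main

variable {K K' : Type} [Field K] [NumberField K] [Field K'] [NumberField K'] [Algebra K K']
  [hn : Normal K K'] {F Ω Bc : Type} [Field F] [Field Ω] [Field Bc]
  [Algebra K F] [Algebra F Ω] [Algebra K Ω] [Algebra K Bc] [IsScalarTower K F Ω] [IsAlgClosed Ω]
  [Algebra.IsAlgebraic F Ω] [IsAlgClosure K Bc] {ℓ : ℕ} [hp : Fact ℓ.Prime] {ζ : K'}
  {C L : Type} [Field C] [Field L] [Algebra L C] [Algebra K C] [Algebra K L]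
  [IsScalarTower K L C] [CharZero L] [IsAlgClosure L C]

include hp hn in
/-- **a section which is locally given by a rational point is the section of this point** -/
theorem ptUP (hζ : IsPrimitiveRoot ζ ℓ) {E : Finset K'} (hE : ℓ ∣ E.card ∨ ℓ ∣ E.card + 1)
    (h3 : 3 ≤ E.card + ninf ℓ E.card) {d : K} (hd : d ≠ 0) {f : K[X]}
    (hf : f.map (algebraMap K K') = ∏ e ∈ E, (X - Polynomial.C e))
    (hall : ∀ i : K' →ₐ[K] C, AllAt L i)
    (hloc : ∀ i : K' →ₐ[K] C, LocAt ℓ L i (GoodAt ℓ E (algebraMap K K' d)))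
    (N : IntermediateField F Ω) (x y : N) (hx : Transcendental K (x : Ω))
    (hΩ : Algebra.IsAlgebraic (IntermediateField.adjoin K {(x : Ω)}) Ω)
    (hxy : algebraMap K Ω d * (y : Ω) ^ ℓ = aeval (x : Ω) f)
    (hN : ∀ z ∈ geomPro ℓ K (IntermediateField.adjoin K {(x : Ω), (y : Ω)}) Ω, z ∈ N)
    (s : GalSection K F N Bc)
    (hsx : ∀ σ, s.s σ x = x) (hsy : ∀ σ, s.s σ y = y) (p : Plc K N C) (hpv : s.GivenBy L p)
    (hpt : RatAt K p x y (mm ℓ E.card)) :
    ∀ σ, ∀ z : N, (z : Ω) ∈ geomPro ℓ K (IntermediateField.adjoin K {(x : Ω), (y : Ω)}) Ω →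
      (s.s σ z ∈ p.W ↔ z ∈ p.W) := by
  classical
  haveI : Algebra.IsAlgebraic K Bc := IsAlgClosure.isAlgebraic
  haveI : IsAlgClosed Bc := IsAlgClosure.isAlgClosed K
  haveI : Normal K Bc := IsAlgClosure.normal K Bc
  haveI : FiniteDimensional K K' := Module.Finite.of_restrictScalars_finite ℚ K K'
  haveI : IsAlgClosed C := IsAlgClosure.isAlgClosed L
  haveI : Algebra.IsAlgebraic L C := IsAlgClosure.isAlgebraic
  let φ : K' →ₐ[K] Bc := IsAlgClosed.lift
  letI iB : Algebra K' Bc := (φ : K' →+* Bc).toAlgebra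
  haveI : IsScalarTower K K' Bc := IsScalarTower.of_algebraMap_eq fun c => (φ.commutes c).symm
  letI iΩ : Algebra K' Ω :=
    ((algebraMap N Ω).comp ((s.j : Bc →+* N).comp (φ : K' →+* Bc))).toAlgebra
  haveI : IsScalarTower K K' Ω := IsScalarTower.of_algebraMap_eq fun c => by
    change _ = ((s.j (φ (algebraMap K K' c)) : N) : Ω)
    rw [φ.commutes, s.j.commutes]
    rfl
  let ι : Bc →ₐ[K] C := p.iot s.j
  let i : K' →ₐ[K] C := ι.comp φ
  letI iC : Algebra K' C := (i : K' →+* C).toAlgebra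
  haveI : IsScalarTower K K' C := IsScalarTower.of_algebraMap_eq fun c => (i.commutes c).symm
  let L' : IntermediateField L C := IntermediateField.adjoin L (Set.range i)
  letI iL : Algebra K' L' := ((i : K' →+* C).codRestrict L'.toSubfield
    (fun c => IntermediateField.subset_adjoin L _ ⟨c, rfl⟩)).toAlgebra
  haveI : IsScalarTower K' L' C := IsScalarTower.of_algebraMap_eq fun c => rfl
  haveI : Algebra.IsAlgebraic L' C := Algebra.IsAlgebraic.tower_top (K := L) L'
  haveI : IsAlgClosure L' C := ⟨inferInstance, inferInstance⟩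
  have hinj : LocPow ℓ L' (GoodAt ℓ E (algebraMap K K' d)) := by
    rintro a ha hv ⟨z, hz⟩
    exact hloc i a ha hv ⟨z, z.2, congrArg Subtype.val hz⟩
  have key := coreP hζ hE h3 hd hf hinj N x y hx hΩ hxy hN s hsx hsy (fun c => rfl) p hpv
    (fun c => iot_val s p _) hpt
  intro σ z hz
  obtain ⟨γ, δ, hδ, rfl⟩ := split_dec (L := L) ι i (fun c => rfl) (hall i) σ
  have h1 : s.s (γ.restrictScalars K * δ) z = s.s (γ.restrictScalars K) (s.s δ z) := by
    rw [map_mul]
    rfl
  rw [h1, key γ _ (geo_stab (K := K) (s.s δ) (hsx δ) (hsy δ) z hz)]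
  exact given_mem hpv hδ z

end main

end Pool.Agent.K3h82.PC
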