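import Pool.Agent.K3h82.OP.Main3

/-!
# Sections which are locally given by a point with rational coordinates
-/

set_option autoImplicit false
set_option linter.all false

open Polynomial FF Pool.Agent.Y157.PS Pool.Agent.TH954 IsDedekindDomain NumberField

namespace Pool.Agent.K3h82.PC

open Pool.Agent.K3h82.BT Pool.Agent.K3h82.OP Pool.Agent.K3h82.FQ4
open Pool.Agent.Y158.GR
open Pool.Agent.Y158.FQ (adjoin_pair_top)

/-- the coordinates of the point have values in `K` -/
def RatAt (K : Type) {N C : Type} [Field K] [Field N] [Field C] [Algebra K N] [Algebra K C]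
    (p : Plc K N C) (X Y : N) (m : ℕ) : Prop :=
  (∃ c c' : K, p.val X (algebraMap K C c) ∧ p.val Y (algebraMap K C c')) ∨
    (p.val X⁻¹ 0 ∧ ∃ c' : K, p.val (Y * X⁻¹ ^ m) (algebraMap K C c'))

section val

variable {K N C : Type} [Field K] [Field N] [Field C] [Algebra K N] [Algebra K C]

theorem RatAt.vals {p : Plc K N C} {X Y : N} {m : ℕ} (hH : RatAt K p X Y m) {b : K}
    (hX0 : X ≠ 0) (hX : X - algebraMap K N b ≠ 0) (hb : (X - algebraMap K N b)⁻¹ ∈ p.W) :
    (∃ c : K, p.val (X - algebraMap K N b)⁻¹ (algebraMap K C c)) ∧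
      ∃ c : K, p.val (Y * (X - algebraMap K N b)⁻¹ ^ m) (algebraMap K C c) := by
  rcases hH with ⟨c, c', hc, hc'⟩ | ⟨h0, c', hc'⟩
  · have h1 := hc.sub (Plc.val_alg (pl := p) b)
    rw [← map_sub] at h1
    obtain ⟨v, hv⟩ := Plc.val_of_mem hb
    have h2 := h1.mul hv
    rw [mul_inv_cancel₀ hX] at h2
    have h3 : algebraMap K C (c - b) * v = 1 := h2.unique Plc.val_one
    have h4 : c - b ≠ 0 := by
      intro h
      rw [h, map_zero, zero_mul] at h3
      exact zero_ne_one h3
    have h5 : algebraMap K C (c - b) ≠ 0 := (_root_.map_ne_zero _).2 h4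
    have h6 := h1.inv h5
    rw [← map_inv₀] at h6
    refine ⟨⟨_, h6⟩, c' * (c - b)⁻¹ ^ m, ?_⟩
    rw [map_mul, map_pow]
    exact hc'.mul (h6.pow m)
  · have h1 := (Plc.val_one (pl := p)).sub ((Plc.val_alg (pl := p) b).mul h0)
    rw [mul_zero, sub_zero] at h1
    have h2 := h1.inv one_ne_zero
    rw [inv_one] at h2
    have e : (X - algebraMap K N b)⁻¹ = X⁻¹ * (1 - algebraMap K N b * X⁻¹)⁻¹ := by
      rw [← mul_inv]
      congr 1
      field_simp
    refine ⟨⟨0, ?_⟩, c', ?_⟩
    · rw [e, map_zero]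
      have h3 := h0.mul h2
      rwa [zero_mul] at h3
    · rw [e, mul_pow, ← mul_assoc]
      have h3 := hc'.mul (h2.pow m)
      rwa [one_pow, mul_one] at h3

end val

section top

variable {K : Type} [Field K] [NumberField K] {F Ω : Type} [Field F] [Field Ω]
  [Algebra K F] [Algebra F Ω] [Algebra K Ω] [IsScalarTower K F Ω] [IsAlgClosed Ω]
  [Algebra.IsAlgebraic F Ω] {ℓ : ℕ} [hp : Fact ℓ.Prime] {ζ : K}
  {C Lv : Type} [Field C] [Field Lv] [Algebra Lv C] [Algebra K C] [Algebra K Lv]
  [IsScalarTower K Lv C] [CharZero Lv] [IsAlgClosure Lv C]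

/-- **a section which is locally given by a rational point is the section of this point** -/
theorem ptP (hζ : IsPrimitiveRoot ζ ℓ) {B : Finset K} (hB : ℓ ∣ B.card ∨ ℓ ∣ B.card + 1)
    (h3 : 3 ≤ B.card + ninf ℓ B.card) {d : K} (hd : d ≠ 0)
    (hinj : LocPow ℓ Lv (GoodAt ℓ B d)) (x y : F) (hx : Transcendental K x)
    (hF : IntermediateField.adjoin K {x, y} = (⊤ : IntermediateField K F))
    (hxy : algebraMap K F d * y ^ ℓ = ∏ e ∈ B, (x - algebraMap K F e))
    (s : GalSection K F (geomPro ℓ K F Ω) (algebraicClosure K Ω))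
    (hs : ∀ z, ((s.j z : geomPro ℓ K F Ω) : Ω) = (z : Ω)) (p : Plc K (geomPro ℓ K F Ω) C)
    (hpv : s.GivenBy Lv p)
    (hpt : RatAt K p (algebraMap F (geomPro ℓ K F Ω) x) (algebraMap F (geomPro ℓ K F Ω) y)
      (mm ℓ B.card)) :
    ∀ σ z, s.s σ z ∈ p.W ↔ z ∈ p.W := by
  classical
  have hac : IsAlgClosure K (algebraicClosure K Ω) := inferInstance
  have hkb : IsAlgClosed (algebraicClosure K Ω) := hac.1
  have hch : CharZero (algebraicClosure K Ω) :=
    charZero_of_injective_algebraMap (algebraMap K (algebraicClosure K Ω)).injective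
  have hkalg : Algebra.IsAlgebraic K (algebraicClosure K Ω) := inferInstance
  obtain ⟨R, M, i1, i2, i3, i4, i5, i6, x', y', eqv, hrat, hCall, hc, hx', hy'⟩ :=
    glueT (Ω := Ω) (imT (algebraicClosure K Ω) B) (by rw [card_imT]; exact hB)
      (by rw [card_imT]; exact h3) x y hx hF hd (by
        rw [prod_imT]
        have h1 := congrArg (algebraMap F Ω) hxy
        rw [map_mul, map_pow, map_prod, ← IsScalarTower.algebraMap_apply] at h1
        rw [h1]
        refine Finset.prod_congr rfl fun e _ => ?_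
        rw [map_sub, ← IsScalarTower.algebraMap_apply]
        rfl)
  have hSec := sec_of (δ := (1 : algebraicClosure K Ω)) one_ne_zero hc hx' (by
      rw [hy']
      change _ = 1 * algebraMap F Ω y
      rw [one_mul]) s.s s.cont (compat_of s hs)
  obtain ⟨sA, hsA⟩ : ∃ sA, sA = conjSec eqv s.s := ⟨_, rfl⟩
  rw [← hsA] at hSec
  have hs' : ∀ σ z, eqv (sA σ z) = s.s σ (eqv z) := fun σ z => by
    rw [hsA]; exact conjSec_apply eqv s.s σ z
  have hcj : ∀ c : algebraicClosure K Ω, eqv (algebraMap (algebraicClosure K Ω) M c) = s.j c :=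
    fun c => Subtype.ext ((hc c).trans (hs c).symm)
  have hx0 : eqv (algebraMap R M x') = algebraMap F (geomPro ℓ K F Ω) x := Subtype.ext hx'
  have hy0 : eqv y' = algebraMap F (geomPro ℓ K F Ω) y := Subtype.ext hy'
  have hKF : ∀ c : K, algebraMap K (geomPro ℓ K F Ω) c =
      algebraMap F (geomPro ℓ K F Ω) (algebraMap K F c) := fun c =>
    Subtype.ext (IsScalarTower.algebraMap_apply K F Ω c)
  have hcK : ∀ c : K, eqv (algebraMap (algebraicClosure K Ω) M (algebraMap K _ c)) =
      algebraMap F (geomPro ℓ K F Ω) (algebraMap K F c) := fun c => by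
    rw [hcj, s.j.commutes, hKF]
  have hmem : ∀ z : M, z ∈ p.W.comap (eqv : M →+* geomPro ℓ K F Ω) ↔ eqv z ∈ p.W :=
    fun z => Iff.rfl
  have hnon : ∀ z : M, z ∈ (p.W.comap (eqv : M →+* geomPro ℓ K F Ω)).nonunits ↔
      eqv z ∈ p.W.nonunits := fun z => comap_non eqv p.W z
  -- values
  have hnv : ∀ (z : geomPro ℓ K F Ω) (c : K), p.val z (algebraMap K C c) →
      z - algebraMap F (geomPro ℓ K F Ω) (algebraMap K F c) ∈ p.W.nonunits := by
    intro z c hc1
    apply non_of_val
    have h1 := hc1.sub (Plc.val_alg (pl := p) c)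
    rw [sub_self] at h1
    rw [← hKF]
    exact h1
  have hsubx : ∀ c : K, x - algebraMap K F c ≠ 0 := by
    intro c h0
    apply hx
    rw [sub_eq_zero.1 h0]
    exact isAlgebraic_algebraMap c
  have hx0' : x ≠ 0 := by
    have h1 := hsubx 0
    rwa [map_zero, sub_zero] at h1
  have hX0 : algebraMap F (geomPro ℓ K F Ω) x ≠ 0 := (_root_.map_ne_zero _).2 hx0'
  have hXb : ∀ b : K, algebraMap F (geomPro ℓ K F Ω) (x - algebraMap K F b)⁻¹ =
      (algebraMap F (geomPro ℓ K F Ω) x - algebraMap K (geomPro ℓ K F Ω) b)⁻¹ := by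
    intro b
    rw [map_inv₀, map_sub, ← hKF]
  have hXb0 : ∀ b : K, algebraMap F (geomPro ℓ K F Ω) x - algebraMap K (geomPro ℓ K F Ω) b ≠ 0 := by
    intro b h
    apply hsubx b
    rw [hKF, ← map_sub] at h
    exact (map_eq_zero _).1 h
  -- the coordinate
  obtain ⟨a, haB⟩ := Infinite.exists_notMem_finset B
  have haT : algebraMap K (algebraicClosure K Ω) a ∉ imT (algebraicClosure K Ω) B := by
    intro h
    obtain ⟨b, hb, hba⟩ := mem_imT.1 h
    exact haB ((algebraMap K (algebraicClosure K Ω)).injective hba ▸ hb)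
  have hP0 : ∏ e ∈ imT (algebraicClosure K Ω) B,
      (algebraMap K (algebraicClosure K Ω) a - e) ≠ 0 := by
    rw [Finset.prod_ne_zero_iff]
    intro e he
    rw [sub_ne_zero]
    rintro rfl
    exact haT he
  obtain ⟨δ, hδ'⟩ := IsAlgClosed.exists_pow_nat_eq
    (algebraMap K (algebraicClosure K Ω) d / (∏ e ∈ imT (algebraicClosure K Ω) B,
      (algebraMap K (algebraicClosure K Ω) a - e))) hp.out.pos
  have hC := hCall _ δ haT (by rw [hδ', div_mul_cancel₀ _ hP0])
  obtain ⟨W, hWO, -⟩ := hC.loc (p.W.comap (eqv : M →+* geomPro ℓ K F Ω)) (fun c => by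
    rw [hmem, hcj]
    exact (iot_val s p c).mem) (by
    intro htop
    have hall : ∀ z, z ∈ p.W := fun z => by
      have h1 : eqv.symm z ∈ p.W.comap (eqv : M →+* geomPro ℓ K F Ω) := by
        rw [htop]; trivial
      rwa [hmem, eqv.apply_symm_apply] at h1
    have hno : ∀ z : geomPro ℓ K F Ω, z ∈ p.W.nonunits → z = 0 := by
      intro z hz
      rw [nonunits_iff] at hz
      rcases hz.2 with h2 | h2
      · exact h2
      · exact absurd (hall _) h2
    rcases hpt with ⟨c, c', hc1, -⟩ | ⟨h0, -⟩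
    · have h1 := hno _ (hnv _ c hc1)
      rw [← map_sub] at h1
      exact hsubx c ((map_eq_zero _).1 h1)
    · have h1 := hno _ (non_of_val h0)
      rw [← map_inv₀] at h1
      exact hx0' (inv_eq_zero.1 ((map_eq_zero _).1 h1)))
  have hact := Act.of_sec hSec
  have hfix := fix_pt hζ (fun e => mem_imT) hrat hd hCall hinj (p.iot s.j) hSec W
    (fun σ hσ => by
      refine fixes_of_O W (sA σ) (σ : _ ≃+* _) (fun b => hact.const σ b) fun z => ?_
      rw [hWO, hmem, hmem, hs']
      exact given_mem hpv hσ _) (fun b hb => by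
      have e1 : eqv (algebraMap R M (x' - algebraMap (algebraicClosure K Ω) R
          (algebraMap K (algebraicClosure K Ω) b))⁻¹) =
          algebraMap F (geomPro ℓ K F Ω) (x - algebraMap K F b)⁻¹ := by
        rw [map_inv₀, map_inv₀, map_sub, map_sub, ← IsScalarTower.algebraMap_apply, hx0, hcK,
          map_inv₀, map_sub]
      rw [hWO, hmem, e1] at hb
      refine ⟨?_, fun hY => ?_⟩
      · rw [hXb] at hb
        obtain ⟨⟨c, hc1⟩, -⟩ := hpt.vals hX0 (hXb0 b) hb
        refine ⟨c, ?_⟩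
        rw [hWO, hnon, map_sub eqv, e1, hcK, hXb]
        exact hnv _ c hc1
      · have e2 : eqv (y' * algebraMap R M (x' - algebraMap (algebraicClosure K Ω) R
            (algebraMap K (algebraicClosure K Ω) b))⁻¹ ^ mm ℓ (imT (algebraicClosure K Ω) B).card) =
            algebraMap F (geomPro ℓ K F Ω) y *
              (algebraMap F (geomPro ℓ K F Ω) x - algebraMap K (geomPro ℓ K F Ω) b)⁻¹ ^
                mm ℓ B.card := by
          rw [map_mul, map_pow, e1, hy0, hXb, card_imT]
        rw [hXb] at hb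
        obtain ⟨-, c, hc1⟩ := hpt.vals hX0 (hXb0 b) hb
        refine ⟨c, ?_⟩
        rw [hWO, hnon, map_sub eqv, e2, hcK]
        exact hnv _ c hc1)
  intro σ z
  have h3 := O_of_fixes W (sA σ) (hfix σ) (eqv.symm z)
  rw [hWO, hmem, hmem, hs', eqv.apply_symm_apply] at h3
  exact h3

end top

end Pool.Agent.K3h82.PC
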