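import Pool.Agent.K3h82.PC.Pt0

/-!
# Sections which are locally given by a point with rational coordinates (2)
-/

set_option autoImplicit false
set_option linter.all false

open Polynomial FF Pool.Agent.Y157.PS Pool.Agent.TH954 IsDedekindDomain NumberField

namespace Pool.Agent.K3h82.PC

open Pool.Agent.K3h82.BT Pool.Agent.K3h82.OP Pool.Agent.K3h82.FQ4
open Pool.Agent.Y158.GR
open Pool.Agent.Y158.FQ (adjoin_pair_top)

section main

variable {K : Type} [Field K] [NumberField K] {F Ω Bc : Type} [Field F] [Field Ω] [Field Bc]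
  [Algebra K F] [Algebra F Ω] [Algebra K Ω] [Algebra K Bc] [IsScalarTower K F Ω] [IsAlgClosed Ω]
  [Algebra.IsAlgebraic F Ω] [IsAlgClosure K Bc] {ℓ : ℕ} [hp : Fact ℓ.Prime] {ζ : K}
  {C Lv : Type} [Field C] [Field Lv] [Algebra Lv C] [Algebra K C] [Algebra K Lv]
  [IsScalarTower K Lv C] [CharZero Lv] [IsAlgClosure Lv C]

/-- **a section which is locally given by a rational point is the section of this point** -/
theorem ptFP (hζ : IsPrimitiveRoot ζ ℓ) {B : Finset K} (hB : ℓ ∣ B.card ∨ ℓ ∣ B.card + 1)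
    (h3 : 3 ≤ B.card + ninf ℓ B.card) {d : K} (hd : d ≠ 0)
    (hinj : LocPow ℓ Lv (GoodAt ℓ B d)) (x y : F) (hx : Transcendental K x)
    (hFx : Algebra.IsAlgebraic (IntermediateField.adjoin K {x}) F)
    (hxy : algebraMap K F d * y ^ ℓ = ∏ e ∈ B, (x - algebraMap K F e))
    (N : IntermediateField F Ω)
    (hN : ∀ z ∈ geomPro ℓ K (IntermediateField.adjoin K {x, y}) Ω, z ∈ N)
    (s : GalSection K F N Bc) (p : Plc K N C) (hpv : s.GivenBy Lv p)
    (hpt : RatAt K p (algebraMap F N x) (algebraMap F N y) (mm ℓ B.card)) :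
    ∀ σ, ∀ z : N, (z : Ω) ∈ geomPro ℓ K (IntermediateField.adjoin K {x, y}) Ω →
      (s.s σ z ∈ p.W ↔ z ∈ p.W) := by
  classical
  obtain ⟨F₀, hF₀⟩ : ∃ F₀ : IntermediateField K F, F₀ = IntermediateField.adjoin K {x, y} :=
    ⟨_, rfl⟩
  have hxF : x ∈ F₀ := by rw [hF₀]; exact IntermediateField.subset_adjoin K _ (by simp)
  have hyF : y ∈ F₀ := by rw [hF₀]; exact IntermediateField.subset_adjoin K _ (by simp)
  rw [← hF₀] at hN ⊢
  obtain ⟨eB, s₀, p₀, hj₀, hpv₀, hs₀, hval, hmem, hFΩ⟩ :=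
    res_sec (ℓ := ℓ) hx hFx F₀ hxF N hN s p hpv
  have htop := adjoin_pair_top hF₀ hxF hyF
  have hx0 : Transcendental K (⟨x, hxF⟩ : F₀) := trans_sub hx hxF
  have hxy0 : algebraMap K F₀ d * (⟨y, hyF⟩ : F₀) ^ ℓ =
      ∏ e ∈ B, ((⟨x, hxF⟩ : F₀) - algebraMap K F₀ e) := by
    apply (algebraMap F₀ F).injective
    rw [map_mul, map_pow, map_prod]
    simp only [map_sub]
    exact hxy
  have hiN : ∀ f : F₀, ((algebraMap F₀ (geomPro ℓ K F₀ Ω) f : geomPro ℓ K F₀ Ω) : Ω) =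
      ((algebraMap F N (f : F) : N) : Ω) := fun f => rfl
  have key := ptP hζ hB h3 hd hinj (⟨x, hxF⟩ : F₀) ⟨y, hyF⟩ hx0 htop hxy0 s₀ hj₀ p₀ hpv₀ (by
    rcases hpt with ⟨c, c', hc, hc'⟩ | ⟨h0, c', hc'⟩
    · exact Or.inl ⟨c, c', (hval _ _ _ (hiN ⟨x, hxF⟩)).2 hc, (hval _ _ _ (hiN ⟨y, hyF⟩)).2 hc'⟩
    · refine Or.inr ⟨(hval (algebraMap F N x)⁻¹ _ _ ?_).2 h0, c',
        (hval (algebraMap F N y * (algebraMap F N x)⁻¹ ^ mm ℓ B.card) _ _ ?_).2 hc'⟩
      · rw [← map_inv₀, ← map_inv₀]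
        exact hiN (⟨x, hxF⟩ : F₀)⁻¹
      · rw [← map_inv₀, ← map_pow, ← map_mul, ← map_inv₀, ← map_pow, ← map_mul]
        exact hiN ((⟨y, hyF⟩ : F₀) * (⟨x, hxF⟩ : F₀)⁻¹ ^ mm ℓ B.card))
  intro g z hz
  have h1 := key (AlgEquiv.autCongr eB g) ⟨(z : Ω), hz⟩
  have h2 := hmem z ⟨(z : Ω), hz⟩ rfl
  have h3 := hmem (s.s g z) (s₀.s (AlgEquiv.autCongr eB g) ⟨(z : Ω), hz⟩)
    (hs₀ g z ⟨(z : Ω), hz⟩ rfl)
  rw [h2, h3] at h1
  exact h1

/-- **a section which is locally given by a rational point is the section of this point** -/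
theorem ptNP (hζ : IsPrimitiveRoot ζ ℓ) {B : Finset K} (hB : ℓ ∣ B.card ∨ ℓ ∣ B.card + 1)
    (h3 : 3 ≤ B.card + ninf ℓ B.card) {d : K} (hd : d ≠ 0)
    (hinj : LocPow ℓ Lv (GoodAt ℓ B d)) (N : IntermediateField F Ω) (x y : N)
    (hx : Transcendental K (x : Ω))
    (hΩ : Algebra.IsAlgebraic (IntermediateField.adjoin K {(x : Ω)}) Ω)
    (hxy : algebraMap K N d * y ^ ℓ = ∏ e ∈ B, (x - algebraMap K N e))
    (hN : ∀ z ∈ geomPro ℓ K (IntermediateField.adjoin K {(x : Ω), (y : Ω)}) Ω, z ∈ N)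
    (s : GalSection K F N Bc) (hsx : ∀ σ, s.s σ x = x) (hsy : ∀ σ, s.s σ y = y)
    (p : Plc K N C) (hpv : s.GivenBy Lv p)
    (hpt : RatAt K p x y (mm ℓ B.card)) :
    ∀ σ, ∀ z : N, (z : Ω) ∈ geomPro ℓ K (IntermediateField.adjoin K {(x : Ω), (y : Ω)}) Ω →
      (s.s σ z ∈ p.W ↔ z ∈ p.W) := by
  haveI : Algebra.IsAlgebraic K Bc := IsAlgClosure.isAlgebraic
  obtain ⟨F', i1, i2, i3, i4, i5, N', e, s', p', he, hS, hpv₁, hval, hmem, hs, hNN', -⟩ :=
    exists_ext s p hpv {x, y} (fun z hz g => by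
      rcases hz with hz | hz
      · rw [hz]; exact hsx g
      · rw [Set.mem_singleton_iff] at hz
        rw [hz]; exact hsy g)
  obtain ⟨x', hx'⟩ := hS x (by simp)
  obtain ⟨y', hy'⟩ := hS y (by simp)
  have hgeo : ∀ z : Ω, z ∈ geomPro ℓ K (IntermediateField.adjoin K {x', y'}) Ω ↔
      z ∈ geomPro ℓ K (IntermediateField.adjoin K {(x : Ω), (y : Ω)}) Ω :=
    Pool.Agent.Y158.FQ.geomPro_base (k := K) (K := K) (X := x') (Y := y')
        (u := (x : Ω)) (w := (y : Ω)) (c := 1) (c' := 1)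
        (one_mem _) (one_mem _) one_ne_zero one_ne_zero (by rw [one_mul, hx'])
        (by rw [one_mul, hy'])
  have hxt : Transcendental K x' := by
    intro h
    apply hx
    rw [← hx']
    exact h.algebraMap
  have hF'x : Algebra.IsAlgebraic (IntermediateField.adjoin K {x'}) F' :=
    alg_down (by rw [hx']; exact hΩ)
  have hxy' : algebraMap K F' d * y' ^ ℓ = ∏ e ∈ B, (x' - algebraMap K F' e) := by
    apply (algebraMap F' Ω).injective
    have h1 := congrArg (algebraMap N Ω) hxy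
    rw [map_mul, map_pow, map_prod] at h1 ⊢
    simp only [map_sub, ← IsScalarTower.algebraMap_apply, hx', hy'] at h1 ⊢
    exact h1
  have hXe : algebraMap F' N' x' = e x := by
    apply Subtype.ext
    rw [he]
    exact hx'
  have hYe : algebraMap F' N' y' = e y := by
    apply Subtype.ext
    rw [he]
    exact hy'
  have key := ptFP hζ hB h3 hd hinj x' y' hxt hF'x hxy' N' (fun z hz =>
    (hNN' z).2 (hN z ((hgeo z).1 hz))) s' p' hpv₁ (by
      rw [hXe, hYe]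
      rcases hpt with ⟨c, c', hc, hc'⟩ | ⟨h0, c', hc'⟩
      · exact Or.inl ⟨c, c', (hval _ _).2 hc, (hval _ _).2 hc'⟩
      · refine Or.inr ⟨?_, c', ?_⟩
        · rw [← map_inv₀]
          exact (hval _ _).2 h0
        · rw [← map_inv₀, ← map_pow, ← map_mul]
          exact (hval _ _).2 hc')
  intro σ z hz
  have h1 := key σ (e z) ((hgeo _).2 (by rw [he]; exact hz))
  rw [hs, hmem, hmem] at h1
  exact h1

end main

end Pool.Agent.K3h82.PC
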